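import Pool.Agent.Lib.MP_a57f33_nt.RT.Stm

/-!
Piece [adj]: existence of the adjoint of an operator which raises the weight.
-/

namespace Pool.Agent.MP_a57f33_nt.RT

open Pool.Agent.MP_a57f33_nt TensorProduct

theorem p_adj : S_adj := by
  classical
  intro X wt hfin n S hS
  obtain ⟨F, hF⟩ : ∃ F : List X → Finset (List X), ∀ w a, a ∈ F w ↔ wt w = wt a + n := by
    refine ⟨fun w => if n ≤ wt w then (hfin (wt w - n)).toFinset else ∅, fun w a => ?_⟩
    by_cases h : n ≤ wt w
    · simp only [if_pos h, Set.Finite.mem_toFinset, Set.mem_ofPred_eq]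
      omega
    · simp only [if_neg h, Finset.notMem_empty, false_iff]
      omega
  obtain ⟨t, ht⟩ : ∃ t : List X → FreeAlgebra ℚ X,
      ∀ w, t w = ∑ a ∈ F w, coeff (S (word a)) w • word a := ⟨_, fun _ => rfl⟩
  obtain ⟨T, hT⟩ : ∃ T : FreeAlgebra ℚ X →ₗ[ℚ] FreeAlgebra ℚ X, ∀ w, T (word w) = t w := by
    refine ⟨(FreeAlgebra.basisFreeMonoid ℚ X).constr ℚ fun m => t m.toList, fun w => ?_⟩
    rw [← basis_apply, Module.Basis.constr_basis]
    rfl
  have hc : ∀ w a : List X, coeff (T (word w)) a = if a ∈ F w then coeff (S (word a)) w else 0 := by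
    intro w a
    rw [hT, ht]
    have h1 : coeff (∑ a ∈ F w, coeff (S (word a)) w • word a) a =
        ∑ a' ∈ F w, coeff (coeff (S (word a')) w • word a') a := by
      simp only [← coeffL_apply, map_sum]
    rw [h1]
    have h2 : ∀ a' ∈ F w, coeff (coeff (S (word a')) w • word a') a =
        if a' = a then coeff (S (word a)) w else 0 := by
      intro a' _
      rw [coeff_smul, coeff_word]
      by_cases h : a' = a
      · subst h
        simp
      · simp [h]
    rw [Finset.sum_congr rfl h2, Finset.sum_ite_eq']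
  refine ⟨T, fun a w => ?_, fun w a h => ?_⟩
  · rw [hc]
    by_cases h : a ∈ F w
    · rw [if_pos h]
    · rw [if_neg h]
      by_contra h1
      exact h ((hF w a).2 (hS a w h1))
  · rw [hc] at h
    by_cases h1 : a ∈ F w
    · exact (hF w a).1 h1
    · rw [if_neg h1] at h
      exact absurd rfl h

end Pool.Agent.MP_a57f33_nt.RT
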