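import Pool.Agent.Lib.MP_a57f33_nt.RT.Stm

/-!
# MP_a57f33_nt : piece `[RT adx]`, the adjoint of `S_ψ`
-/

namespace Pool.Agent.MP_a57f33_nt.RT

open Pool.Agent.MP_a57f33_nt TensorProduct

private lemma adx_ins_zs (m : ℕ) : ∀ f : List Bool → ℚ,
    ins false (zs m) f = (m + 1) * f (zs (m + 1)) := by
  induction m with
  | zero => intro f; simp [ins, List.replicate_succ]
  | succ m ih =>
    intro f
    have h1 : zs (m + 1) = false :: zs m := by simp [List.replicate_succ]
    rw [h1, ins, ih]
    simp only [List.replicate_succ]
    push_cast
    ring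

private lemma adx_lie_zs {ψ : QX} (h : ψ ∈ LieX) (h1 : coeff ψ [false] = 0) (n : ℕ) :
    coeff ψ (zs n) = 0 := by
  rcases n with _ | n
  · exact (lie_ins h).1
  · rcases n with _ | m
    · exact h1
    · have h2 := (lie_ins h).2 false (zs (m + 1)) (by simp)
      rw [adx_ins_zs] at h2
      have h3 : (((m + 1 : ℕ) : ℚ) + 1) ≠ 0 := by positivity
      rcases mul_eq_zero.mp h2 with h4 | h4
      · exact absurd h4 h3
      · exact h4

private lemma adx_zs_succ (m : ℕ) : zs (m + 1) = false :: zs m := by simp [List.replicate_succ]

private lemma adx_conv_left (j : ℕ) : ∀ f g : List Bool → ℚ, (∀ i, f (zs i) = 0) →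
    conv (zs j) f g = 0 := by
  induction j with
  | zero =>
    intro f g hf
    have : f [] = 0 := hf 0
    change conv [] f g = 0
    simp only [conv]
    rw [this, zero_mul]
  | succ j ih =>
    intro f g hf
    rw [adx_zs_succ]
    simp only [conv]
    have h0 : f [] = 0 := hf 0
    rw [h0, zero_mul, zero_add]
    exact ih _ _ fun i => by have := hf (i + 1); rwa [adx_zs_succ] at this

private lemma adx_conv_right (j : ℕ) : ∀ f g : List Bool → ℚ, (∀ i, g (zs i) = 0) →
    conv (zs j) f g = 0 := by
  induction j with
  | zero =>
    intro f g hg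
    have : g [] = 0 := hg 0
    change conv [] f g = 0
    simp only [conv]
    rw [this, mul_zero]
  | succ j ih =>
    intro f g hg
    have h0 : g (zs (j + 1)) = 0 := hg (j + 1)
    rw [adx_zs_succ] at h0 ⊢
    simp only [conv]
    rw [h0, mul_zero, zero_add]
    exact ih _ _ hg

private lemma adx_conv_snoc (j : ℕ) : ∀ f g : List Bool → ℚ, (∀ i, f (zs i) = 0) →
    g [] = 0 → conv (zs j ++ [true]) f g = 0 := by
  induction j with
  | zero =>
    intro f g hf hg
    have : f [] = 0 := hf 0
    change conv [true] f g = 0
    simp only [conv]
    rw [this, hg]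
    ring
  | succ j ih =>
    intro f g hf hg
    rw [adx_zs_succ, List.cons_append]
    simp only [conv]
    have h0 : f [] = 0 := hf 0
    rw [h0, zero_mul, zero_add]
    exact ih _ _ (fun i => by have := hf (i + 1); rwa [adx_zs_succ] at this) hg

/-- No powers of `x₀`. -/
private def adx_V (q : QX) : Prop := ∀ i, coeff q (zs i) = 0

private lemma adx_V_left {q : QX} (h : adx_V q) (r : QX) : adx_V (q * r) := by
  intro i
  rw [coeff_mul]
  exact adx_conv_left i _ _ h

private lemma adx_V_right {r : QX} (h : adx_V r) (q : QX) : adx_V (q * r) := by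
  intro i
  rw [coeff_mul]
  exact adx_conv_right i _ _ h

private lemma adx_V_add {q r : QX} (h : adx_V q) (k : adx_V r) : adx_V (q + r) := by
  intro i
  rw [coeff_add, h i, k i, add_zero]

private lemma adx_V_sub {q r : QX} (h : adx_V q) (k : adx_V r) : adx_V (q - r) := by
  intro i
  rw [coeff_sub, h i, k i, sub_zero]

private lemma adx_V_zero : adx_V 0 := fun _ => coeff_zero _

private lemma adx_V_der {ψ : QX} (h : adx_V ψ) (w : List Bool) : adx_V (der ψ (word w)) := by
  induction w with
  | nil => rw [word_nil, der_one]; exact adx_V_zero
  | cons b w ih =>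
    rw [word_cons, der_mul]
    apply adx_V_add _ (adx_V_right ih _)
    cases b with
    | false => rw [der_false, zero_mul]; exact adx_V_zero
    | true =>
      rw [der_true]
      exact adx_V_left (adx_V_sub (adx_V_right h _) (adx_V_left h _)) _

private lemma adx_V_X1 (q : QX) : adx_V (q * FreeAlgebra.ι ℚ true) := by
  intro i
  cases i with
  | zero => exact coeff_mul_iota_nil true q
  | succ i =>
    have : zs (i + 1) = zs i ++ [false] := List.replicate_succ'
    rw [this, coeff_mul_iota_snoc, if_neg (by simp)]

private lemma adx_lam (a : List Bool) (g : QX) : coeff (lam g) a = coeff g (true :: a) := by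
  have h : (coeffL a).comp lam = coeffL (true :: a) := by
    apply linear_ext
    intro w
    simp only [LinearMap.comp_apply, coeffL_apply, lam_word]
    rcases w with _ | ⟨b, w⟩
    · rw [coeff_word]
      simp [tlw, coeff_zero]
    · cases b with
      | false =>
        rw [coeff_word]
        simp [tlw, coeff_zero]
      | true =>
        rw [coeff_word]
        simp only [tlw]
        rw [coeff_word]
        by_cases e : w = a
        · subst e; simp
        · rw [if_neg e, if_neg]
          intro e'
          exact e (List.cons.inj e').2
  exact LinearMap.congr_fun h g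

theorem p_adx : S_adx := by
  intro n ψ T hψ hT
  have hact : ∀ f : QX, actL ψ f = ψ * f + der ψ f := by
    intro f
    simp [actL, derL_apply]
  refine ⟨?_, ?_, ?_⟩
  · intro w a h
    rw [← hT a w] at h
    have hh : IsHom (n + a.length) (actL ψ (word a)) := by
      rw [hact]
      exact (hψ.mul (isHom_word a)).add (isHom_der hψ (isHom_word a))
    by_contra hne
    exact h (hh w (by omega))
  · have hX1 : ∀ f : QX, actL ψ (FreeAlgebra.ι ℚ true * f) =
        FreeAlgebra.ι ℚ true * actL ψ f := by
      intro f
      rw [hact, hact, der_mul, der_true]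
      noncomm_ring
    have hlin : T.comp lam = lam.comp T := by
      apply linear_ext
      intro w
      rw [LinearMap.comp_apply, LinearMap.comp_apply]
      apply ext_coeff
      intro a
      rw [adx_lam, ← hT, word_cons, hX1, lam_word]
      rcases w with _ | ⟨b, w⟩
      · rw [coeff_iota_mul_nil]
        simp [tlw, coeff_zero]
      · rw [coeff_iota_mul_cons]
        cases b with
        | false => simp [tlw, coeff_zero]
        | true =>
          simp only [tlw]
          rw [if_pos trivial, hT]
    intro f
    exact LinearMap.congr_fun hlin f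
  · intro hL h0 j
    have hV : adx_V ψ := fun i => adx_lie_zs hL h0 i
    apply ext_coeff
    intro a
    rw [← hT, coeff_smul]
    rcases List.eq_nil_or_concat a with rfl | ⟨a', b, rfl⟩
    · rw [word_nil, hact, der_one, mul_one, add_zero]
      rw [← word_nil, coeff_word]
      simp
    · have h1 : coeff (1 : QX) (a'.concat b) = 0 := by
        rw [← word_nil, coeff_word, if_neg]
        intro e
        have := congrArg List.length e
        simp at this
      rw [h1, mul_zero]
      have hw : word (a'.concat b) = word a' * (FreeAlgebra.ι ℚ b : QX) := by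
        rw [List.concat_eq_append, word_append]
        simp
      rw [hw, hact, der_mul]
      cases b with
      | false =>
        rw [der_false, mul_zero, add_zero, ← mul_assoc, ← add_mul, coeff_mul_iota_snoc,
          if_neg (by simp)]
      | true =>
        rw [der_true]
        have e : ψ * (word a' * FreeAlgebra.ι ℚ true) +
            (der ψ (word a') * FreeAlgebra.ι ℚ true +
              word a' * (FreeAlgebra.ι ℚ true * ψ - ψ * FreeAlgebra.ι ℚ true)) =
            (ψ * word a' + der ψ (word a') - word a' * ψ) * FreeAlgebra.ι ℚ true +
              (word a' * FreeAlgebra.ι ℚ true) * ψ := by noncomm_ring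
        rw [e, coeff_add, coeff_mul_iota_snoc, if_pos rfl]
        have h2 : adx_V (ψ * word a' + der ψ (word a') - word a' * ψ) :=
          adx_V_sub (adx_V_add (adx_V_left hV _) (adx_V_der hV _)) (adx_V_right hV _)
        have h3 : coeff (word a' * FreeAlgebra.ι ℚ true * ψ)
            (List.replicate j false ++ [true]) = 0 := by
          rw [coeff_mul]
          exact adx_conv_snoc j _ _ (adx_V_X1 _) (hV 0)
        rw [h3, add_zero]
        exact h2 j

end Pool.Agent.MP_a57f33_nt.RT
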