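import Pool.Agent.Lib.MP_a57f33_nt.RT.Stm

namespace Pool.Agent.MP_a57f33_nt.RT

open Pool.Agent.MP_a57f33_nt TensorProduct

theorem p_dec : S_dec := by
  classical
  intro k _ _ n δ
  let b := Module.Basis.ofVectorSpace ℚ k
  have hfin : (Set.Finite {w : List Bool | w.length = n}) := List.finite_length_eq Bool n
  let J : Finset (Module.Basis.ofVectorSpaceIndex ℚ k) :=
    hfin.toFinset.biUnion fun w => (b.repr (δ w)).support
  let f := J.equivFin
  refine ⟨J.card, fun j => b (f.symm j), fun j => b.coord (f.symm j), fun w hw => ?_⟩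
  have hsub : (b.repr (δ w)).support ⊆ J := by
    refine Finset.subset_biUnion_of_mem (fun w => (b.repr (δ w)).support) ?_
    rw [Set.Finite.mem_toFinset]
    exact hw
  have h1 : δ w = ∑ i ∈ J, (b.repr (δ w)) i • b i := by
    conv_lhs => rw [← b.linearCombination_repr (δ w)]
    rw [Finsupp.linearCombination_apply, Finsupp.sum]
    refine Finset.sum_subset hsub fun i _ hi => ?_
    rw [Finsupp.notMem_support_iff.mp hi, zero_smul]
  have h2 : ∑ j : Fin J.card, (b.coord (f.symm j)) (δ w) • b (f.symm j) =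
      ∑ i ∈ J, (b.repr (δ w)) i • b i := by
    rw [← Finset.sum_coe_sort J, ← f.symm.sum_comp]
    rfl
  rw [h2]
  exact h1

end Pool.Agent.MP_a57f33_nt.RT
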