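import Pool.Agent.Lib.MP_a57f33_nt.RT.Stm

/-!
# Racinet's torsor theorem: the adjoint of a coderivation is a derivation
-/

set_option autoImplicit false

namespace Pool.Agent.MP_a57f33_nt.RT

open Pool.Agent.MP_a57f33_nt TensorProduct

/-- Induction for elements of the free algebra: words, sums, multiples. -/
private theorem dert_ind {X : Type} (P : FreeAlgebra ℚ X → Prop) (h : ∀ w : List X, P (word w))
    (h0 : P 0) (ha : ∀ f g, P f → P g → P (f + g)) (hs : ∀ (r : ℚ) f, P f → P (r • f))
    (f : FreeAlgebra ℚ X) : P f := by
  have hm := (FreeAlgebra.basisFreeMonoid ℚ X).mem_span f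
  refine Submodule.span_induction (p := fun x _ => P x) ?_ h0 (fun x y _ _ hx hy => ha x y hx hy)
    (fun r x _ hx => hs r x hx) hm
  rintro x ⟨m, rfl⟩
  have e : (FreeAlgebra.basisFreeMonoid ℚ X) m = word m.toList := by
    rw [← basis_apply, FreeMonoid.ofList_toList]
  show P ((FreeAlgebra.basisFreeMonoid ℚ X) m)
  rw [e]
  exact h _

/-- The pairing in which the words are orthonormal. -/
private noncomputable def dert_PL (X : Type) : FreeAlgebra ℚ X →ₗ[ℚ] (FreeAlgebra ℚ X →ₗ[ℚ] ℚ) :=
  (FreeAlgebra.basisFreeMonoid ℚ X).constr ℚ fun m => coeffL m.toList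

private theorem dert_PL_word {X : Type} (w : List X) : dert_PL X (word w) = coeffL w := by
  rw [← basis_apply, dert_PL, Module.Basis.constr_basis]
  rfl

private theorem dert_coeff_symm {X : Type} (v w : List X) :
    coeff (word v : FreeAlgebra ℚ X) w = coeff (word w : FreeAlgebra ℚ X) v := by
  classical
  rw [coeff_word, coeff_word]
  by_cases h : v = w
  · rw [if_pos h, if_pos h.symm]
  · rw [if_neg h, if_neg (fun e => h e.symm)]

private theorem dert_PL_right {X : Type} (p : FreeAlgebra ℚ X) (a : List X) :
    dert_PL X p (word a) = coeff p a := by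
  have h : (dert_PL X).flip (word a) = coeffL a := by
    apply linear_ext
    intro w
    rw [LinearMap.flip_apply, dert_PL_word, coeffL_apply, coeffL_apply, dert_coeff_symm]
  exact LinearMap.congr_fun h p

/-- The pairing on the tensor square. -/
private noncomputable def dert_PP {X : Type} (f g : FreeAlgebra ℚ X) :
    FreeAlgebra ℚ X ⊗[ℚ] FreeAlgebra ℚ X →ₗ[ℚ] ℚ :=
  (LinearMap.mul' ℚ ℚ).comp (TensorProduct.map (dert_PL X f) (dert_PL X g))

private theorem dert_PP_word {X : Type} (u v : List X) : dert_PP (word u) (word v) = ccx u v := by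
  rw [dert_PP, dert_PL_word, dert_PL_word]
  rfl

private theorem dert_lp {X : Type} (b : List X → List X → List (List X))
    (Δ : FreeAlgebra ℚ X →ₗ[ℚ] FreeAlgebra ℚ X ⊗[ℚ] FreeAlgebra ℚ X)
    (hΔ : ∀ f u v, ccx u v (Δ f) = ((b u v).map (coeff f)).sum) (a : List X)
    (f g : FreeAlgebra ℚ X) :
    coeff (lp b f g) a = dert_PP f g (Δ (word a)) := by
  refine dert_ind (fun f => ∀ g, coeff (lp b f g) a = dert_PP f g (Δ (word a))) ?_ ?_ ?_ ?_ f g
  · intro u g
    refine dert_ind (fun g => coeff (lp b (word u) g) a = dert_PP (word u) g (Δ (word a)))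
      ?_ ?_ ?_ ?_ g
    · intro v
      show coeff (lp b (word u) (word v)) a = dert_PP (word u) (word v) (Δ (word a))
      rw [dert_PP_word, hΔ, lp_word, ← coeffL_apply, map_list_sum, List.map_map]
      congr 1
      apply List.map_congr_left
      intro x _
      show coeff (word x) a = coeff (word a) x
      exact dert_coeff_symm x a
    · show coeff (lp b (word u) 0) a = dert_PP (word u) 0 (Δ (word a))
      simp [dert_PP, coeff_zero]
    · intro g g' h h'
      show coeff (lp b (word u) (g + g')) a = dert_PP (word u) (g + g') (Δ (word a))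
      rw [map_add, coeff_add, h, h']
      simp [dert_PP, TensorProduct.map_add_right]
    · intro r g h
      show coeff (lp b (word u) (r • g)) a = dert_PP (word u) (r • g) (Δ (word a))
      rw [map_smul, coeff_smul, h]
      simp [dert_PP, TensorProduct.map_smul_right]
  · intro g
    show coeff (lp b 0 g) a = dert_PP 0 g (Δ (word a))
    simp [dert_PP, coeff_zero]
  · intro f f' h h' g
    show coeff (lp b (f + f') g) a = dert_PP (f + f') g (Δ (word a))
    rw [map_add, LinearMap.add_apply, coeff_add, h, h']
    simp [dert_PP, TensorProduct.map_add_left]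
  · intro r f h g
    show coeff (lp b (r • f) g) a = dert_PP (r • f) g (Δ (word a))
    rw [map_smul, LinearMap.smul_apply, coeff_smul, h]
    simp [dert_PP, TensorProduct.map_smul_left]

private theorem dert_comp {X : Type} (S T : FreeAlgebra ℚ X →ₗ[ℚ] FreeAlgebra ℚ X)
    (h : IsAdj S T) (u : List X) :
    (dert_PL X (word u)).comp S = dert_PL X (T (word u)) := by
  apply linear_ext
  intro a
  rw [LinearMap.comp_apply, dert_PL_word, coeffL_apply, dert_PL_right]
  exact h a u

theorem p_dert : S_dert := by
  intro X b Δ hΔ S T hS hST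
  have hT : ∀ (a : List X) (f : FreeAlgebra ℚ X),
      coeff (T f) a = dert_PL X (S (word a)) f := by
    intro a f
    have e : (coeffL a).comp T = dert_PL X (S (word a)) := by
      apply linear_ext
      intro w
      rw [LinearMap.comp_apply, coeffL_apply, dert_PL_right]
      exact (hST a w).symm
    exact LinearMap.congr_fun e f
  have key : ∀ u v : List X, T (lp b (word u) (word v)) =
      lp b (T (word u)) (word v) + lp b (word u) (T (word v)) := by
    intro u v
    apply ext_coeff
    intro a
    rw [hT, coeff_add, dert_lp b Δ hΔ, dert_lp b Δ hΔ, lp_word, map_list_sum, List.map_map]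
    have e1 : (List.map ((dert_PL X (S (word a)) : FreeAlgebra ℚ X → ℚ) ∘ word) (b u v)).sum =
        ((b u v).map (coeff (S (word a)))).sum := by
      congr 1
      apply List.map_congr_left
      intro x _
      exact dert_PL_right _ _
    rw [e1, ← hΔ, hS, ← dert_PP_word]
    show (LinearMap.mul' ℚ ℚ) (TensorProduct.map (dert_PL X (word u)) (dert_PL X (word v))
      (cod S (Δ (word a)))) =
      (LinearMap.mul' ℚ ℚ) (TensorProduct.map (dert_PL X (T (word u))) (dert_PL X (word v))
        (Δ (word a))) +
      (LinearMap.mul' ℚ ℚ) (TensorProduct.map (dert_PL X (word u)) (dert_PL X (T (word v)))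
        (Δ (word a)))
    rw [← dert_comp S T hST u, ← dert_comp S T hST v, cod, LinearMap.add_apply, map_add, map_add]
    congr 1
    · rw [← LinearMap.comp_apply (TensorProduct.map (dert_PL X (word u)) (dert_PL X (word v)))
        (TensorProduct.map S LinearMap.id), ← TensorProduct.map_comp, LinearMap.comp_id]
    · rw [← LinearMap.comp_apply (TensorProduct.map (dert_PL X (word u)) (dert_PL X (word v)))
        (TensorProduct.map LinearMap.id S), ← TensorProduct.map_comp, LinearMap.comp_id]
  intro f g
  refine dert_ind (fun f => ∀ g, T (lp b f g) = lp b (T f) g + lp b f (T g)) ?_ ?_ ?_ ?_ f g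
  · intro u g
    refine dert_ind (fun g => T (lp b (word u) g) = lp b (T (word u)) g + lp b (word u) (T g))
      (key u) ?_ ?_ ?_ g
    · simp
    · intro g g' h h'
      show T (lp b (word u) (g + g')) = lp b (T (word u)) (g + g') + lp b (word u) (T (g + g'))
      simp only [map_add]
      rw [h, h']
      abel
    · intro r g h
      show T (lp b (word u) (r • g)) = lp b (T (word u)) (r • g) + lp b (word u) (T (r • g))
      simp only [map_smul]
      rw [h, smul_add]
  · intro g
    simp
  · intro f f' h h' g
    show T (lp b (f + f') g) = lp b (T (f + f')) g + lp b (f + f') (T g)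
    simp only [map_add, LinearMap.add_apply]
    rw [h, h']
    abel
  · intro r f h g
    show T (lp b (r • f) g) = lp b (T (r • f)) g + lp b (r • f) (T g)
    simp only [map_smul, LinearMap.smul_apply]
    rw [h, smul_add]

end Pool.Agent.MP_a57f33_nt.RT
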