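import Pool.Agent.Lib.MP_a57f33_nt.RT.Stm

/-!
The difference of two solutions of the regularised double shuffle relations in the first weight
lies in `dm0`.
-/

namespace Pool.Agent.MP_a57f33_nt.RT

open Pool.Agent.MP_a57f33_nt TensorProduct

private lemma dif_coeff_sum {X : Type} (s : Finset (List X)) (c : List X → ℚ) (w : List X) :
    coeff (∑ a ∈ s, c a • word a) w = open Classical in if w ∈ s then c w else 0 := by
  classical
  have h : coeff (∑ a ∈ s, c a • word a) w = ∑ a ∈ s, if a = w then c a else 0 := by
    rw [← coeffL_apply, map_sum]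
    refine Finset.sum_congr rfl fun a _ => ?_
    rw [map_smul, coeffL_apply, coeff_word, smul_eq_mul, mul_ite, mul_one, mul_zero]
  rw [h, Finset.sum_ite_eq']

private lemma dif_shuffle_length {α : Type} (N : ℕ) : ∀ u v : List α, u.length + v.length = N →
    ∀ t ∈ Cyc.shuffle u v, t.length = N := by
  induction N using Nat.strong_induction_on with
  | _ N ih =>
    intro u v hN t ht
    cases u with
    | nil =>
      rw [Cyc.shuffle] at ht
      rw [List.mem_singleton] at ht
      subst ht
      simpa using hN
    | cons a u =>
      cases v with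
      | nil =>
        rw [Cyc.shuffle] at ht
        rw [List.mem_singleton] at ht
        subst ht
        simpa using hN
      | cons b v =>
        simp only [List.length_cons] at hN
        rw [Cyc.shuffle] at ht
        rw [List.mem_append, List.mem_map, List.mem_map] at ht
        rcases ht with ⟨s, hs, rfl⟩ | ⟨s, hs, rfl⟩
        · have := ih (N - 1) (by omega) u (b :: v) (by simp only [List.length_cons]; omega) s hs
          simp only [List.length_cons]; omega
        · have := ih (N - 1) (by omega) (a :: u) v (by simp only [List.length_cons]; omega) s hs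
          simp only [List.length_cons]; omega

private lemma dif_toX_cons (a : ℕ+) (u : List ℕ+) :
    (toX (a :: u)).length = (a : ℕ) + (toX u).length := by
  have := a.pos
  simp only [toX, List.length_append, List.length_replicate, List.length_cons]
  omega

private lemma dif_stuffle_length (N : ℕ) : ∀ u v : List ℕ+, u.length + v.length = N →
    ∀ t ∈ Cyc.stuffle u v, (toX t).length = (toX u).length + (toX v).length := by
  induction N using Nat.strong_induction_on with
  | _ N ih =>
    intro u v hN t ht
    cases u with
    | nil =>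
      rw [Cyc.stuffle] at ht
      rw [List.mem_singleton] at ht
      subst ht
      simp [toX]
    | cons a u =>
      cases v with
      | nil =>
        rw [Cyc.stuffle] at ht
        rw [List.mem_singleton] at ht
        subst ht
        simp [toX]
      | cons b v =>
        simp only [List.length_cons] at hN
        rw [Cyc.stuffle] at ht
        rw [List.mem_append, List.mem_append, List.mem_map, List.mem_map, List.mem_map] at ht
        rcases ht with (⟨s, hs, rfl⟩ | ⟨s, hs, rfl⟩) | ⟨s, hs, rfl⟩
        · have := ih (N - 1) (by omega) u (b :: v) (by simp only [List.length_cons]; omega) s hs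
          rw [dif_toX_cons, dif_toX_cons a u, this]; omega
        · have := ih (N - 1) (by omega) (a :: u) v (by simp only [List.length_cons]; omega) s hs
          rw [dif_toX_cons, dif_toX_cons b v, this]; omega
        · have := ih (N - 2) (by omega) u v (by omega) s hs
          rw [dif_toX_cons, dif_toX_cons a u, dif_toX_cons b v, this, PNat.add_coe]; omega

private lemma dif_len_le (u : List ℕ+) : u.length ≤ (toX u).length := by
  induction u with
  | nil => simp
  | cons a u ih =>
    have := a.pos
    rw [dif_toX_cons, List.length_cons]; omega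

private lemma dif_toX_append (u v : List ℕ+) : toX (u ++ v) = toX u ++ toX v := by
  induction u with
  | nil => simp [toX]
  | cons a u ih => simp [toX, ih]

private lemma dif_toX_rep (i : ℕ) : (toX (List.replicate i 1)).length = i := by
  induction i with
  | zero => simp [toX]
  | succ i ih => rw [List.replicate_succ, dif_toX_cons, ih, PNat.one_coe]; omega

private lemma dif_drop (u : List ℕ+) (i : ℕ) (h : u.take i = List.replicate i 1) :
    (toX (u.drop i)).length + i = (toX u).length := by
  have h1 : toX u = toX (u.take i) ++ toX (u.drop i) := by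
    rw [← dif_toX_append, List.take_append_drop]
  rw [h1, h, List.length_append, dif_toX_rep]; omega

section

variable {k : Type} [CommRing k] [Algebra ℚ k]

private lemma dif_div (m : ℕ) (a b : k) (h : ((m : k) + 1) * a = b) :
    a = (((m : ℚ) + 1)⁻¹) • b := by
  have h0 : ((m : ℚ) + 1) ≠ 0 := by positivity
  have h1 : (m : k) + 1 = algebraMap ℚ k ((m : ℚ) + 1) := by simp
  rw [← h, h1, ← Algebra.smul_def, smul_smul, inv_mul_cancel₀ h0, one_smul]

private lemma dif_gamma {γ γ' : ℕ → k} {Z Z' : List Bool → k} {n : ℕ} (h : Cyc.RegDS γ Z)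
    (h' : Cyc.RegDS γ' Z') (hZ : ∀ w : List Bool, w.length < n → Z w = Z' w) :
    ∀ i, i < n → γ i = γ' i := by
  intro i
  induction i using Nat.strong_induction_on with
  | _ i ih =>
    intro hi
    cases i with
    | zero => rw [h.gamma_zero, h'.gamma_zero]
    | succ m =>
      rw [dif_div m _ _ (h.gamma_succ m), dif_div m _ _ (h'.gamma_succ m)]
      congr 1
      refine Finset.sum_congr rfl fun ij hij => ?_
      rw [Finset.HasAntidiagonal.mem_antidiagonal] at hij
      rw [ih ij.1 (by omega) (by omega), hZ _ (by simp; omega)]

private lemma dif_gamma_top {γ γ' : ℕ → k} {Z Z' : List Bool → k} {n : ℕ} (h : Cyc.RegDS γ Z)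
    (h' : Cyc.RegDS γ' Z') (hn : 1 ≤ n) (hZ : ∀ w : List Bool, w.length < n → Z w = Z' w) :
    γ n - γ' n = ((-1) ^ (n - 1) / (n : ℚ)) •
      (Z (List.replicate (n - 1) false ++ [true]) - Z' (List.replicate (n - 1) false ++ [true])) := by
  obtain ⟨m, rfl⟩ : ∃ m, n = m + 1 := ⟨n - 1, by omega⟩
  rw [dif_div m _ _ (h.gamma_succ m), dif_div m _ _ (h'.gamma_succ m), ← smul_sub,
    ← Finset.sum_sub_distrib]
  have h1 : ∑ ij ∈ Finset.HasAntidiagonal.antidiagonal m,
      (γ ij.1 * ((-1) ^ ij.2 * Z (List.replicate ij.2 false ++ [true])) -
        γ' ij.1 * ((-1) ^ ij.2 * Z' (List.replicate ij.2 false ++ [true]))) =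
      (-1) ^ m * (Z (List.replicate m false ++ [true]) - Z' (List.replicate m false ++ [true])) := by
    rw [Finset.sum_eq_single ((0 : ℕ), m)]
    · simp only [h.gamma_zero, h'.gamma_zero]
      ring
    · rintro ⟨i, j⟩ hij hne
      rw [Finset.HasAntidiagonal.mem_antidiagonal] at hij
      simp only at hij ⊢
      have hi : i ≠ 0 := by
        rintro rfl
        apply hne
        rw [Nat.zero_add] at hij
        rw [hij]
      rw [dif_gamma h h' hZ i (by omega), hZ _ (by simp; omega), sub_self]
    · intro hm
      exact absurd (Finset.HasAntidiagonal.mem_antidiagonal.mpr (by simp)) hm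
  rw [h1]
  have h2 : ((-1 : k)) ^ m = algebraMap ℚ k ((-1) ^ m) := by simp
  rw [h2, ← Algebra.smul_def, smul_smul, Nat.add_sub_cancel]
  congr 1
  push_cast
  rw [div_eq_mul_inv, mul_comm]

omit [Algebra ℚ k] in
private lemma dif_star_low {γ γ' : ℕ → k} {Z Z' : List Bool → k} {n : ℕ}
    (hγ : ∀ i, i < n → γ i = γ' i) (hZ : ∀ w : List Bool, w.length < n → Z w = Z' w)
    (u : List ℕ+) (hu : (toX u).length < n) : Cyc.star γ Z u = Cyc.star γ' Z' u := by
  refine Finset.sum_congr rfl fun i hi => ?_
  rw [Finset.mem_range] at hi
  have := dif_len_le u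
  by_cases h : u.take i = List.replicate i 1
  · have h2 := dif_drop u i h
    rw [if_pos h, if_pos h, hγ i (by omega), hZ _ (by omega)]
  · rw [if_neg h, if_neg h]

omit [Algebra ℚ k] in
private lemma dif_star_top {γ γ' : ℕ → k} {Z Z' : List Bool → k} {n : ℕ} (hn : 1 ≤ n)
    (h0 : γ 0 = 1) (h0' : γ' 0 = 1) (h1 : Z [] = 1) (h1' : Z' [] = 1)
    (hγ : ∀ i, i < n → γ i = γ' i) (hZ : ∀ w : List Bool, w.length < n → Z w = Z' w)
    (u : List ℕ+) (hu : (toX u).length = n) :
    Cyc.star γ Z u - Cyc.star γ' Z' u =
      (Z (toX u) - Z' (toX u)) + if u = List.replicate n 1 then γ n - γ' n else 0 := by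
  have hlen := dif_len_le u
  unfold Cyc.star
  rw [Finset.sum_range_succ', Finset.sum_range_succ' (fun i =>
    if u.take i = List.replicate i 1 then γ' i * Z' (toX (u.drop i)) else 0)]
  simp only [List.take_zero, List.replicate_zero, if_true, List.drop_zero, h0, h0', one_mul]
  rw [add_sub_add_comm, ← Finset.sum_sub_distrib, add_comm]
  congr 1
  by_cases hr : u = List.replicate n 1
  · rw [if_pos hr]
    have hl : u.length = n := by rw [hr, List.length_replicate]
    obtain ⟨m, rfl⟩ : ∃ m, n = m + 1 := ⟨n - 1, by omega⟩
    rw [hl, Finset.sum_range_succ]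
    have hz : ∑ x ∈ Finset.range m, ((if u.take (x + 1) = List.replicate (x + 1) 1 then
        γ (x + 1) * Z (toX (u.drop (x + 1))) else 0) -
        (if u.take (x + 1) = List.replicate (x + 1) 1 then
        γ' (x + 1) * Z' (toX (u.drop (x + 1))) else 0)) = 0 := by
      refine Finset.sum_eq_zero fun i hi => ?_
      rw [Finset.mem_range] at hi
      by_cases h : u.take (i + 1) = List.replicate (i + 1) 1
      · have h2 := dif_drop u (i + 1) h
        rw [if_pos h, if_pos h, hγ (i + 1) (by omega), hZ _ (by omega), sub_self]
      · rw [if_neg h, if_neg h, sub_self]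
    rw [hz, zero_add]
    have ht : u.take (m + 1) = List.replicate (m + 1) 1 := by
      rw [List.take_of_length_le (by omega)]; exact hr
    have hd : u.drop (m + 1) = [] := List.drop_of_length_le (by omega)
    rw [if_pos ht, if_pos ht, hd]
    simp only [toX, h1, h1', mul_one]
  · rw [if_neg hr]
    refine Finset.sum_eq_zero fun i hi => ?_
    rw [Finset.mem_range] at hi
    by_cases h : u.take (i + 1) = List.replicate (i + 1) 1
    · have h2 := dif_drop u (i + 1) h
      have hne : i + 1 ≠ n := by
        intro hin
        apply hr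
        rw [← hin, ← h, List.take_of_length_le (by omega)]
      rw [if_pos h, if_pos h, hγ (i + 1) (by omega), hZ _ (by omega), sub_self]
    · rw [if_neg h, if_neg h, sub_self]

private lemma dif_list_sum {α : Type} (L : k →ₗ[ℚ] ℚ) (F F' : α → k) (c : α → ℚ) (l : List α)
    (h : ∀ t ∈ l, c t = L (F t - F' t)) :
    (l.map c).sum = L ((l.map F).sum - (l.map F').sum) := by
  induction l with
  | nil => simp
  | cons a l ih =>
    rw [List.map_cons, List.sum_cons, List.map_cons, List.sum_cons, List.map_cons, List.sum_cons,
      ih (fun t ht => h t (List.mem_cons_of_mem _ ht)), h a List.mem_cons_self, ← map_add]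
    congr 1
    ring

end

theorem p_dif : S_shp → S_ext → S_fri → S_dif := by
  intro hshp hext hfri k _ _ γ γ' Z Z' n hn h h' hZ L
  classical
  set s : Finset (List Bool) := (List.finite_length_eq Bool n).toFinset with hs
  have hmem : ∀ w, w ∈ s ↔ w.length = n := by
    intro w
    rw [hs, Set.Finite.mem_toFinset]
    rfl
  set φ : QX := ∑ w ∈ s, L (Z w - Z' w) • word w with hφdef
  have hφ : ∀ w, coeff φ w = if w.length = n then L (Z w - Z' w) else 0 := by
    intro w
    rw [hφdef, dif_coeff_sum s (fun w => L (Z w - Z' w)) w]
    simp only [hmem]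
  have hhom : IsHom n φ := fun w hw => by rw [hφ, if_neg hw]
  have hγ := dif_gamma h h' hZ
  have hlie : φ ∈ LieX := by
    refine hfri n φ (by omega) hhom fun u v hu hv => ?_
    have hul : 0 < u.length := List.length_pos_iff.mpr hu
    have hvl : 0 < v.length := List.length_pos_iff.mpr hv
    by_cases hl : u.length + v.length = n
    · rw [dif_list_sum L Z Z' (coeff φ) (Cyc.shuffle u v)
        (fun t ht => by rw [hφ, if_pos (dif_shuffle_length n u v hl t ht)]),
        h.shuffle_rel, h'.shuffle_rel, hZ u (by omega), hZ v (by omega), sub_self, map_zero]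
    · refine List.sum_eq_zero fun x hx => ?_
      rw [List.mem_map] at hx
      obtain ⟨t, ht, rfl⟩ := hx
      exact hhom t (by rw [dif_shuffle_length _ u v rfl t ht]; exact hl)
  have hst : ∀ u : List ℕ+, (toX u).length ≠ n → starCoeff φ u = 0 := by
    intro u hu
    unfold starCoeff
    rw [hhom _ hu, zero_add]
    split_ifs with hc
    · have h1 : (toX u).length = u.length := by
        conv_lhs => rw [hc.2]
        rw [dif_toX_rep]
      rw [hhom (List.replicate (u.length - 1) false ++ [true]) (by simp; omega), mul_zero]
    · rfl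
  have htop : ∀ u : List ℕ+, (toX u).length = n →
      starCoeff φ u = L (Cyc.star γ Z u - Cyc.star γ' Z' u) := by
    intro u hu
    rw [dif_star_top (by omega) h.gamma_zero h'.gamma_zero h.one h'.one hγ hZ u hu, map_add]
    unfold starCoeff
    rw [hφ, if_pos hu]
    congr 1
    by_cases hr : u = List.replicate n 1
    · have hul : u.length = n := by rw [hr, List.length_replicate]
      rw [if_pos hr, hul, if_pos ⟨by omega, hr⟩, dif_gamma_top h h' (by omega) hZ, map_smul,
        smul_eq_mul, hφ, if_pos (by simp; omega)]
    · rw [if_neg hr, map_zero, if_neg]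
      rintro ⟨_, h2⟩
      apply hr
      have h1 : (toX u).length = u.length := by
        conv_lhs => rw [h2]
        rw [dif_toX_rep]
      rw [← hu, h1]
      exact h2
  have hfin : Set.Finite {u : List ℕ+ | (toX u).length = n} :=
    (List.finite_length_eq Bool n).preimage toX_injective.injOn
  set p : QY := ∑ u ∈ hfin.toFinset, starCoeff φ u • word u with hpdef
  have hp : ∀ u, coeff p u = starCoeff φ u := by
    intro u
    rw [hpdef, dif_coeff_sum hfin.toFinset (starCoeff φ) u]
    split_ifs with hc
    · rfl
    · rw [Set.Finite.mem_toFinset] at hc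
      exact (hst u hc).symm
  have hp0 : coeff p [] = 0 := by
    rw [hp]
    exact hst [] (by simp [toX]; omega)
  refine ⟨φ, ⟨hlie, hhom _ (by simp; omega), hhom _ (by simp; omega), hhom _ (by simp; omega), p, hp,
    ?_⟩, hhom, fun w hw => by rw [hφ, if_pos hw]⟩
  rw [← sub_eq_zero]
  refine hext _ fun u v => ?_
  have h1 : ∀ w : List ℕ+, coeff (1 : QY) w = if w = [] then 1 else 0 := by
    intro w
    rw [← word_nil, coeff_word]
    simp only [eq_comm]
  rw [map_sub, map_add, ccx_tmul, ccx_tmul, hshp.2, h1, h1]
  cases u with
  | nil =>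
    rw [Cyc.stuffle]
    simp [hp0]
  | cons a u =>
    cases v with
    | nil =>
      rw [Cyc.stuffle]
      simp
    | cons b v =>
      have hul : 0 < (toX (a :: u)).length := by
        have := a.pos
        rw [dif_toX_cons]; omega
      have hvl : 0 < (toX (b :: v)).length := by
        have := b.pos
        rw [dif_toX_cons]; omega
      have hz : ((Cyc.stuffle (a :: u) (b :: v)).map (coeff p)).sum = 0 := by
        by_cases hl : (toX (a :: u)).length + (toX (b :: v)).length = n
        · rw [dif_list_sum L (Cyc.star γ Z) (Cyc.star γ' Z') (coeff p)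
            (Cyc.stuffle (a :: u) (b :: v))
            (fun t ht => by
              rw [hp, htop t (by rw [dif_stuffle_length _ _ _ rfl t ht]; exact hl)]),
            h.stuffle_rel, h'.stuffle_rel, dif_star_low hγ hZ (a :: u) (by omega),
            dif_star_low hγ hZ (b :: v) (by omega), sub_self, map_zero]
        · refine List.sum_eq_zero fun x hx => ?_
          rw [List.mem_map] at hx
          obtain ⟨t, ht, rfl⟩ := hx
          rw [hp]
          exact hst t (by rw [dif_stuffle_length _ _ _ rfl t ht]; exact hl)
      rw [hz]
      simp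

end Pool.Agent.MP_a57f33_nt.RT
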