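import Pool.Agent.Lib.MP_a57f33_nt.RT.Stm

/-!
# Piece expc: the coefficients of `expP`
-/

namespace Pool.Agent.MP_a57f33_nt.RT

open Pool.Agent.MP_a57f33_nt TensorProduct

section

variable {X : Type}

/-- the words occurring in `T f` come from words occurring in `f` -/
theorem expc_occ (T : Module.End ℚ (FreeAlgebra ℚ X)) (f : FreeAlgebra ℚ X) (a : List X)
    (h : coeff (T f) a ≠ 0) : ∃ c : List X, coeff f c ≠ 0 ∧ coeff (T (word c)) a ≠ 0 := by
  by_contra hn
  have hn' : ∀ c : List X, coeff f c ≠ 0 → coeff (T (word c)) a = 0 := by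
    intro c hc
    by_contra h2
    exact hn ⟨c, hc, h2⟩
  apply h
  have e := (FreeAlgebra.basisFreeMonoid ℚ X).linearCombination_repr f
  rw [← coeffL_apply]
  conv_lhs => rw [← e]
  rw [Finsupp.linearCombination_apply, Finsupp.sum, map_sum, map_sum]
  refine Finset.sum_eq_zero fun m _ => ?_
  rw [map_smul, map_smul]
  have hb : FreeAlgebra.basisFreeMonoid ℚ X m = word m.toList := by
    rw [← basis_apply, FreeMonoid.ofList_toList]
  rw [hb]
  by_cases hm : (FreeAlgebra.basisFreeMonoid ℚ X).repr f m = 0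
  · rw [hm, zero_smul]
  · have h3 : coeff f m.toList ≠ 0 := by
      unfold coeff
      rw [FreeMonoid.ofList_toList]
      exact hm
    rw [coeffL_apply, hn' _ h3, smul_zero]

theorem expc_pow (wt : List X → ℕ) (n : ℕ) (T : Module.End ℚ (FreeAlgebra ℚ X))
    (hT : Lowers wt n T) (w : List X) (m : ℕ) :
    ∀ a : List X, coeff ((T ^ m) (word w)) a ≠ 0 → wt w = wt a + n * m := by
  classical
  induction m with
  | zero =>
    intro a ha
    rw [pow_zero, Module.End.one_apply, coeff_word] at ha
    have : w = a := by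
      by_contra h
      rw [if_neg h] at ha
      exact ha rfl
    rw [this, mul_zero, add_zero]
  | succ m ih =>
    intro a ha
    rw [pow_succ', Module.End.mul_apply] at ha
    obtain ⟨c, hc, hca⟩ := expc_occ T _ a ha
    have h1 := ih c hc
    have h2 := hT c a hca
    rw [h1, h2]
    ring

theorem expc_zero (wt : List X → ℕ) (n : ℕ) (T : Module.End ℚ (FreeAlgebra ℚ X)) (hn : 1 ≤ n)
    (hT : Lowers wt n T) (m : ℕ) (w : List X) (h : wt w < m) : (T ^ m) (word w) = 0 := by
  apply ext_coeff
  intro a
  rw [coeff_zero]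
  by_contra ha
  have h1 := expc_pow wt n T hT w m a ha
  have h2 : m ≤ n * m := Nat.le_mul_of_pos_left m hn
  omega

end

theorem p_expc : S_expc := by
  intro X k _ _ wt n T hn hT
  refine ⟨fun m w h => expc_zero wt n T hn hT m w h, fun Z w m => ?_⟩
  unfold expP
  rw [Polynomial.finsetSum_coeff]
  simp only [Polynomial.coeff_monomial]
  rw [Finset.sum_ite_eq']
  split_ifs with h
  · rfl
  · rw [Finset.mem_range, not_lt] at h
    rw [expc_zero wt n T hn hT m w h, map_zero, smul_zero]

end Pool.Agent.MP_a57f33_nt.RT
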