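import Pool.Agent.Lib.MP_a57f33_nt.RT.Stm

set_option autoImplicit false

namespace Pool.Agent.MP_a57f33_nt.RT

open Pool.Agent.MP_a57f33_nt TensorProduct

theorem expm_leib {X : Type} (b : List X → List X → List (List X))
    (T : Module.End ℚ (FreeAlgebra ℚ X)) (hT : IsDer b T) (f g : FreeAlgebra ℚ X) (m : ℕ) :
    (T ^ m) (lp b f g) = ∑ ij ∈ Finset.HasAntidiagonal.antidiagonal m,
      (m.choose ij.1) • lp b ((T ^ ij.1) f) ((T ^ ij.2) g) := by
  induction m with
  | zero => simp
  | succ m ih =>
    rw [Finset.sum_antidiagonal_choose_succ_nsmul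
      (fun i j => lp b ((T ^ i) f) ((T ^ j) g)) m, pow_succ', Module.End.mul_apply, ih, map_sum,
      ← Finset.sum_add_distrib]
    refine Finset.sum_congr rfl fun ij hij => ?_
    rw [Finset.HasAntidiagonal.mem_antidiagonal] at hij
    have h1 : m.choose ij.2 = m.choose ij.1 := by
      rw [← hij, Nat.choose_symm_add, add_comm, Nat.choose_symm_add, add_comm]
    rw [map_nsmul, hT, h1, smul_add, pow_succ', Module.End.mul_apply, pow_succ',
      Module.End.mul_apply]
    abel

theorem expm_pair {X : Type} {k : Type} [CommRing k] [Algebra ℚ k]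
    (b : List X → List X → List (List X)) (Z : List X → k) (hZ : Mult b Z)
    (f g : FreeAlgebra ℚ X) : pair Z (lp b f g) = pair Z f * pair Z g := by
  have h2 : ∀ u : List X, ∀ g : FreeAlgebra ℚ X,
      pair Z (lp b (word u) g) = pair Z (word u) * pair Z g := by
    intro u g
    have h : (pair Z).comp (lp b (word u)) =
        (LinearMap.mulLeft ℚ (pair Z (word u))).comp (pair Z) := by
      apply linear_ext
      intro v
      simp only [LinearMap.comp_apply, LinearMap.mulLeft_apply]
      rw [lp_word, map_list_sum, List.map_map, pair_word, pair_word, ← hZ u v]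
      congr 1
      refine List.map_congr_left fun x _ => ?_
      simp only [Function.comp_apply]
      exact pair_word Z x
    exact LinearMap.congr_fun h g
  have h : (pair Z).comp ((lp b).flip g) = (LinearMap.mulRight ℚ (pair Z g)).comp (pair Z) := by
    apply linear_ext
    intro u
    simp only [LinearMap.comp_apply, LinearMap.mulRight_apply, LinearMap.flip_apply]
    exact h2 u g
  exact LinearMap.congr_fun h f

theorem p_expm : S_expc → S_expm := by
  intro hc X k _ _ b wt n T Z hn hT hl hZ u v
  have hco := (hc (k := k) wt n T hn hl).2 Z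
  ext m
  have e1 : (((b u v).map (expP wt T Z)).sum).coeff m =
      ((m.factorial : ℚ)⁻¹) • pair Z ((T ^ m) (lp b (word u) (word v))) := by
    rw [lp_word]
    generalize b u v = l
    induction l with
    | nil => simp
    | cons x l ih =>
      rw [List.map_cons, List.map_cons, List.sum_cons, List.sum_cons, Polynomial.coeff_add, ih,
        hco, map_add, map_add, smul_add]
  rw [e1, Polynomial.coeff_mul, expm_leib b T hT, map_sum, Finset.smul_sum]
  refine Finset.sum_congr rfl fun ij hij => ?_
  rw [Finset.HasAntidiagonal.mem_antidiagonal] at hij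
  rw [map_nsmul, expm_pair b Z hZ, hco, hco, ← Nat.cast_smul_eq_nsmul ℚ, smul_smul]
  rw [smul_mul_smul_comm]
  congr 1
  rw [← hij, Nat.choose_symm_add, Nat.add_choose, Nat.cast_div (Nat.factorial_mul_factorial_dvd_factorial_add _ _)
    (by positivity)]
  push_cast
  have h1 : ((ij.1 + ij.2).factorial : ℚ) ≠ 0 := by positivity
  have h2 : (ij.1.factorial : ℚ) ≠ 0 := by positivity
  have h3 : (ij.2.factorial : ℚ) ≠ 0 := by positivity
  field_simp

end Pool.Agent.MP_a57f33_nt.RT
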