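import Pool.Agent.Lib.MP_a57f33_nt.RT.Stm

/-!
# [RT ext]: an element of the tensor square with all coefficients zero is zero
-/

namespace Pool.Agent.MP_a57f33_nt.RT

open Pool.Agent.MP_a57f33_nt TensorProduct

theorem p_ext : S_ext := by
  intro X t h
  have key : ∀ m n : FreeMonoid X,
      ((FreeAlgebra.basisFreeMonoid ℚ X).tensorProduct (FreeAlgebra.basisFreeMonoid ℚ X)).coord
        (m, n) = ccx m.toList n.toList := by
    intro m n
    refine TensorProduct.ext' fun a b => ?_
    rw [Module.Basis.coord_apply, Module.Basis.tensorProduct_repr_tmul_apply, ccx_tmul, smul_eq_mul,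
      mul_comm]
    rfl
  refine ((FreeAlgebra.basisFreeMonoid ℚ X).tensorProduct
    (FreeAlgebra.basisFreeMonoid ℚ X)).repr.injective ?_
  rw [map_zero]
  refine Finsupp.ext fun p => ?_
  have h1 := LinearMap.congr_fun (key p.1 p.2) t
  rw [Module.Basis.coord_apply, h] at h1
  exact h1

end Pool.Agent.MP_a57f33_nt.RT
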