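import Pool.Agent.Lib.MP_a57f33_nt.RT.Stm

/-!
# Friedrichs' theorem: primitive elements are Lie elements
-/

namespace Pool.Agent.MP_a57f33_nt.RT

open Pool.Agent.MP_a57f33_nt TensorProduct

attribute [local instance 100] LieRing.ofAssociativeRing

/-- The bracket `[x_1, [x_2, …, x_n]]`. -/
private noncomputable def friW : List Bool → QX
  | [] => 0
  | a :: w => FreeAlgebra.ι ℚ a * friW w - friW w * FreeAlgebra.ι ℚ a +
      (if w = [] then FreeAlgebra.ι ℚ a else 0)

private noncomputable def friD : QX →ₗ[ℚ] QX :=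
  (FreeAlgebra.basisFreeMonoid ℚ Bool).constr ℚ fun m => friW m.toList

private lemma friD_word (w : List Bool) : friD (word w) = friW w := by
  rw [← basis_apply, friD, Module.Basis.constr_basis]
  rfl

private noncomputable def friN : QX →ₗ[ℚ] QX :=
  (FreeAlgebra.basisFreeMonoid ℚ Bool).constr ℚ fun m => (m.toList.length : ℚ) • word m.toList

private lemma friN_word (w : List Bool) : friN (word w) = (w.length : ℚ) • word w := by
  rw [← basis_apply, friN, Module.Basis.constr_basis]
  rw [basis_apply]
  rfl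

private lemma friN_one : friN 1 = 0 := by
  have := friN_word []
  simpa using this

private lemma friN_iota_mul (a : Bool) (f : QX) :
    friN (FreeAlgebra.ι ℚ a * f) = FreeAlgebra.ι ℚ a * friN f + FreeAlgebra.ι ℚ a * f := by
  have : friN.comp (LinearMap.mulLeft ℚ (FreeAlgebra.ι ℚ a)) =
      (LinearMap.mulLeft ℚ (FreeAlgebra.ι ℚ a)).comp friN +
        LinearMap.mulLeft ℚ (FreeAlgebra.ι ℚ a) := by
    apply linear_ext
    intro w
    simp only [LinearMap.comp_apply, LinearMap.mulLeft_apply, LinearMap.add_apply]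
    rw [← word_cons, friN_word, friN_word, word_cons, mul_smul_comm, List.length_cons]
    push_cast
    rw [add_smul, one_smul]
  exact LinearMap.congr_fun this f

private lemma coeff_friN (f : QX) (w : List Bool) :
    coeff (friN f) w = (w.length : ℚ) * coeff f w := by
  have : (coeffL w).comp friN = (w.length : ℚ) • coeffL w := by
    apply linear_ext
    intro v
    simp only [LinearMap.comp_apply, LinearMap.smul_apply, coeffL_apply, friN_word, coeff_smul,
      smul_eq_mul, coeff_word]
    split_ifs with h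
    · rw [h]
    · ring
  exact LinearMap.congr_fun this f

private lemma friW_mem (w : List Bool) : friW w ∈ LieX := by
  induction w with
  | nil => exact zero_mem _
  | cons a w ih =>
    have ha : (FreeAlgebra.ι ℚ a : QX) ∈ LieX := LieSubalgebra.subset_lieSpan ⟨a, rfl⟩
    have h1 : ⁅(FreeAlgebra.ι ℚ a : QX), friW w⁆ ∈ LieX := LieX.lie_mem ha ih
    rw [LieRing.of_associative_ring_bracket] at h1
    refine add_mem h1 ?_
    split_ifs
    · exact ha
    · exact zero_mem _

private lemma friD_mem (f : QX) : friD f ∈ LieX := by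
  have : (LieX.toSubmodule.mkQ).comp friD = 0 := by
    apply linear_ext
    intro w
    simp only [LinearMap.comp_apply, friD_word, LinearMap.zero_apply, Submodule.mkQ_apply]
    rw [Submodule.Quotient.mk_eq_zero]
    exact friW_mem w
  have h := LinearMap.congr_fun this f
  simp only [LinearMap.comp_apply, LinearMap.zero_apply, Submodule.mkQ_apply] at h
  rw [Submodule.Quotient.mk_eq_zero] at h
  exact h

private noncomputable def friM (A : QX →ₗ[ℚ] QX) : QX ⊗[ℚ] QX →ₗ[ℚ] QX :=
  (LinearMap.mul' ℚ QX).comp (TensorProduct.map A SS)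

private lemma friM_tmul (A : QX →ₗ[ℚ] QX) (a b : QX) : friM A (a ⊗ₜ[ℚ] b) = A a * SS b := by
  simp [friM]

private lemma SS_iota (a : Bool) : SS (FreeAlgebra.ι ℚ a) = -FreeAlgebra.ι ℚ a := anti_iota _ _

private lemma friM_id (a : Bool) (t : QX ⊗[ℚ] QX) :
    friM LinearMap.id (((FreeAlgebra.ι ℚ a : QX) ⊗ₜ[ℚ] (1 : QX) +
      (1 : QX) ⊗ₜ[ℚ] (FreeAlgebra.ι ℚ a : QX)) * t) =
    FreeAlgebra.ι ℚ a * friM LinearMap.id t - friM LinearMap.id t * FreeAlgebra.ι ℚ a := by
  induction t using TensorProduct.induction_on with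
  | zero => simp
  | tmul x y =>
    rw [add_mul, Algebra.TensorProduct.tmul_mul_tmul, Algebra.TensorProduct.tmul_mul_tmul, map_add,
      friM_tmul, friM_tmul, friM_tmul]
    simp only [LinearMap.id_apply, one_mul, SS_mul, SS_iota]
    noncomm_ring
  | add x y hx hy =>
    rw [mul_add, map_add, hx, hy, map_add]
    noncomm_ring

private lemma friM_N (a : Bool) (t : QX ⊗[ℚ] QX) :
    friM friN (((FreeAlgebra.ι ℚ a : QX) ⊗ₜ[ℚ] (1 : QX) +
      (1 : QX) ⊗ₜ[ℚ] (FreeAlgebra.ι ℚ a : QX)) * t) =
    FreeAlgebra.ι ℚ a * friM friN t - friM friN t * FreeAlgebra.ι ℚ a +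
      FreeAlgebra.ι ℚ a * friM LinearMap.id t := by
  induction t using TensorProduct.induction_on with
  | zero => simp
  | tmul x y =>
    rw [add_mul, Algebra.TensorProduct.tmul_mul_tmul, Algebra.TensorProduct.tmul_mul_tmul, map_add,
      friM_tmul, friM_tmul, friM_tmul, friM_tmul, friN_iota_mul]
    simp only [LinearMap.id_apply, one_mul, SS_mul, SS_iota]
    noncomm_ring
  | add x y hx hy =>
    rw [mul_add, map_add, hx, hy, map_add, map_add]
    noncomm_ring

private lemma Dsh_cons (a : Bool) (w : List Bool) : Dsh (word (a :: w)) =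
    ((FreeAlgebra.ι ℚ a : QX) ⊗ₜ[ℚ] (1 : QX) + (1 : QX) ⊗ₜ[ℚ] (FreeAlgebra.ι ℚ a : QX)) *
      Dsh (word w) := by
  rw [word_cons, map_mul]
  congr 1
  simp [Dsh]

private lemma friA (w : List Bool) :
    friM LinearMap.id (Dsh (word w)) = if w = [] then 1 else 0 := by
  induction w with
  | nil =>
    rw [word_nil, map_one, Algebra.TensorProduct.one_def, friM_tmul]
    simp [SS, anti_one]
  | cons a w ih =>
    rw [Dsh_cons, friM_id, ih]
    by_cases h : w = [] <;> simp [h]

private lemma friB (w : List Bool) : friM friN (Dsh (word w)) = friD (word w) := by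
  induction w with
  | nil =>
    rw [friD_word, word_nil, map_one, Algebra.TensorProduct.one_def, friM_tmul, friN_one]
    simp [friW]
  | cons a w ih =>
    rw [Dsh_cons, friM_N, ih, friA, friD_word, friD_word, friW]
    split_ifs <;> simp

theorem p_fri : S_shp → S_ext → S_fri := by
  intro hshp hext n φ hn hφ hsh
  have h0 : coeff φ [] = 0 := hφ [] (by simp; omega)
  have c1 : ∀ w : List Bool, coeff (1 : QX) w = if w = [] then 1 else 0 := by
    intro w
    rw [← word_nil, coeff_word]
    by_cases h : w = []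
    · subst h; simp
    · rw [if_neg (fun e => h e.symm), if_neg h]
  have hprim : Dsh φ = φ ⊗ₜ[ℚ] 1 + 1 ⊗ₜ[ℚ] φ := by
    rw [← sub_eq_zero]
    apply hext
    intro u v
    rw [map_sub, map_add, hshp.1, ccx_tmul, ccx_tmul, c1, c1]
    rcases u with _ | ⟨a, u⟩
    · rcases v with _ | ⟨b, v⟩
      · simp [Cyc.shuffle, h0]
      · simp [Cyc.shuffle, h0]
    · rcases v with _ | ⟨b, v⟩
      · simp [Cyc.shuffle, h0]
      · rw [hsh _ _ (by simp) (by simp)]
        simp
  have hB : friM friN (Dsh φ) = friD φ := by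
    have : (friM friN).comp Dsh.toLinearMap = friD := by
      apply linear_ext
      intro w
      exact friB w
    exact LinearMap.congr_fun this φ
  have hN : friN φ = (n : ℚ) • φ := by
    apply ext_coeff
    intro w
    rw [coeff_friN, coeff_smul]
    by_cases h : w.length = n
    · rw [h]
    · rw [hφ w h, mul_zero, mul_zero]
  rw [hprim, map_add, friM_tmul, friM_tmul, friN_one, zero_mul, add_zero, hN] at hB
  have hS1 : SS (1 : QX) = 1 := by simp [SS, anti_one]
  rw [hS1, mul_one] at hB
  have hn0 : (n : ℚ) ≠ 0 := by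
    have : (0 : ℚ) < n := by exact_mod_cast hn
    exact this.ne'
  have : φ = (n : ℚ)⁻¹ • friD φ := by rw [← hB, smul_smul, inv_mul_cancel₀ hn0, one_smul]
  rw [this]
  exact LieX.smul_mem _ (friD_mem φ)

end Pool.Agent.MP_a57f33_nt.RT
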