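import Pool.Agent.Lib.MP_a57f33_nt.RT.Stm

/-!
# Racinet's torsor theorem: piece `[gam]`
-/

set_option autoImplicit false

namespace Pool.Agent.MP_a57f33_nt.RT

open Pool.Agent.MP_a57f33_nt TensorProduct

private lemma gam_coeff {k : Type} [CommRing k] [Algebra ℚ k] (n : ℕ) (hn : 1 ≤ n) (κ : ℚ)
    (γ : ℕ → k) (i l : ℕ) : (gamP n κ γ i).coeff l =
      if n * l ≤ i then algebraMap ℚ k ((l.factorial : ℚ)⁻¹ * κ ^ l) * γ (i - n * l) else 0 := by
  unfold gamP
  rw [Polynomial.finsetSum_coeff]
  have hval : ∀ b : ℕ, (if n * b ≤ i then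
      Polynomial.monomial b (((b.factorial : ℚ)⁻¹ * κ ^ b) • γ (i - n * b)) else
      (0 : Polynomial k)).coeff l = if b = l then (if n * l ≤ i then
        algebraMap ℚ k ((l.factorial : ℚ)⁻¹ * κ ^ l) * γ (i - n * l) else 0) else 0 := by
    intro b
    by_cases hb : b = l
    · subst hb
      rw [if_pos rfl]
      by_cases h : n * b ≤ i
      · rw [if_pos h, if_pos h, Polynomial.coeff_monomial, if_pos rfl, Algebra.smul_def]
      · rw [if_neg h, if_neg h, Polynomial.coeff_zero]
    · rw [if_neg hb]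
      by_cases h : n * b ≤ i
      · rw [if_pos h, Polynomial.coeff_monomial, if_neg hb]
      · rw [if_neg h, Polynomial.coeff_zero]
  rw [Finset.sum_congr rfl (fun b _ => hval b), Finset.sum_ite_eq' (Finset.range (i + 1)) l]
  by_cases h : n * l ≤ i
  · have h2 : l ∈ Finset.range (i + 1) := by
      rw [Finset.mem_range]
      have := Nat.le_mul_of_pos_left l hn
      omega
    rw [if_pos h2]
  · rw [if_neg h]
    split_ifs <;> rfl

private lemma gam_shift {k : Type} [CommRing k] (N m : ℕ) (g h : ℕ → k) :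
    (∑ ij ∈ Finset.HasAntidiagonal.antidiagonal (N + m),
      (if N ≤ ij.1 then g (ij.1 - N) else 0) * h ij.2) =
    ∑ ij ∈ Finset.HasAntidiagonal.antidiagonal m, g ij.1 * h ij.2 := by
  rw [Finset.Nat.sum_antidiagonal_eq_sum_range_succ
      (fun i j => (if N ≤ i then g (i - N) else 0) * h j) (N + m),
    Finset.Nat.sum_antidiagonal_eq_sum_range_succ (fun i j => g i * h j) m]
  have e : (N + m).succ = N + m.succ := rfl
  rw [e, Finset.sum_range_add]
  rw [Finset.sum_eq_zero (s := Finset.range N), zero_add]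
  · refine Finset.sum_congr rfl fun x hx => ?_
    rw [if_pos (Nat.le_add_right N x), Nat.add_sub_cancel_left, Nat.add_sub_add_left]
  · intro x hx
    rw [if_neg (by rw [Finset.mem_range] at hx; omega), zero_mul]

private lemma gam_small {k : Type} [CommRing k] (N m : ℕ) (hN : m < N) (g h : ℕ → k) :
    (∑ ij ∈ Finset.HasAntidiagonal.antidiagonal m,
      (if N ≤ ij.1 then g (ij.1 - N) else 0) * h ij.2) = 0 := by
  refine Finset.sum_eq_zero fun ij hij => ?_
  rw [Finset.HasAntidiagonal.mem_antidiagonal] at hij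
  rw [if_neg (by omega), zero_mul]

private lemma gam_one {k : Type} [CommRing k] (n m : ℕ) (hn : 1 ≤ n) (G : ℕ → k) (c : k) :
    (∑ ij ∈ Finset.HasAntidiagonal.antidiagonal m,
      G ij.1 * ((-1) ^ ij.2 * (if ij.2 + 1 = n then c else 0))) =
    if n ≤ m + 1 then G (m + 1 - n) * ((-1) ^ (n - 1) * c) else 0 := by
  by_cases h : n ≤ m + 1
  · rw [if_pos h, Finset.sum_eq_single (m + 1 - n, n - 1)]
    · dsimp only
      rw [if_pos (by omega)]
    · rintro ⟨a, b⟩ hab hne
      rw [Finset.HasAntidiagonal.mem_antidiagonal] at hab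
      dsimp only at hab ⊢
      rw [if_neg, mul_zero, mul_zero]
      intro hb
      refine hne ?_
      rw [Prod.mk.injEq]
      omega
    · intro hnot
      refine absurd ?_ hnot
      rw [Finset.HasAntidiagonal.mem_antidiagonal]
      dsimp only
      omega
  · rw [if_neg h]
    refine Finset.sum_eq_zero fun ij hij => ?_
    rw [Finset.HasAntidiagonal.mem_antidiagonal] at hij
    rw [if_neg (by omega), mul_zero, mul_zero]

private lemma gam_key {k : Type} [CommRing k] [Algebra ℚ k] (n l : ℕ) (hn : 1 ≤ n) (κ c : ℚ)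
    (hκ : κ = (-1) ^ (n - 1) / (n : ℚ) * c) :
    algebraMap ℚ k (((l + 1).factorial : ℚ)⁻¹ * κ ^ (l + 1)) * ((n : k) * ((l : k) + 1)) =
      algebraMap ℚ k ((l.factorial : ℚ)⁻¹ * κ ^ l) * ((-1) ^ (n - 1) * algebraMap ℚ k c) := by
  have hn0 : (n : ℚ) ≠ 0 := by
    have : n ≠ 0 := by omega
    exact_mod_cast this
  have hl0 : ((l : ℚ) + 1) ≠ 0 := by positivity
  have hf0 : (l.factorial : ℚ) ≠ 0 := by
    exact_mod_cast Nat.factorial_ne_zero l
  have e1 : κ * n = (-1) ^ (n - 1) * c := by
    rw [hκ]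
    field_simp
  have e : (((l + 1).factorial : ℚ)⁻¹ * κ ^ (l + 1)) * ((n : ℚ) * ((l : ℚ) + 1)) =
      ((l.factorial : ℚ)⁻¹ * κ ^ l) * ((-1) ^ (n - 1) * c) := by
    rw [← e1, Nat.factorial_succ, Nat.cast_mul, Nat.cast_add, Nat.cast_one, mul_inv, pow_succ]
    have e2 : ((l : ℚ) + 1)⁻¹ * ((l : ℚ) + 1) = 1 := inv_mul_cancel₀ hl0
    calc ((l : ℚ) + 1)⁻¹ * (l.factorial : ℚ)⁻¹ * (κ ^ l * κ) * ((n : ℚ) * ((l : ℚ) + 1))
        = (((l : ℚ) + 1)⁻¹ * ((l : ℚ) + 1)) * ((l.factorial : ℚ)⁻¹ * κ ^ l * (κ * n)) := by ring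
      _ = _ := by rw [e2, one_mul]
  have e3 := congrArg (algebraMap ℚ k) e
  rw [map_mul (algebraMap ℚ k) _ ((n : ℚ) * ((l : ℚ) + 1)),
    map_mul (algebraMap ℚ k) _ ((-1) ^ (n - 1) * c), map_mul (algebraMap ℚ k) (n : ℚ), map_add,
    map_natCast, map_natCast, map_one, map_mul (algebraMap ℚ k) ((-1) ^ (n - 1)) c, map_pow,
    map_neg, map_one] at e3
  exact e3

theorem p_gam : S_gam := by
  intro k _ _ n κ c γ Z ZP hn hκ hγ0 hγ hZ
  have h0 : algebraMap ℚ k (((0 : ℕ).factorial : ℚ)⁻¹ * κ ^ 0) = 1 := by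
    rw [Nat.factorial_zero, Nat.cast_one, inv_one, pow_zero, mul_one, map_one]
  have hmul : ∀ (a b : k) (s : ℕ), a * ((-1) ^ s * b) = (-1) ^ s * (a * b) := by
    intro a b s
    ring
  refine ⟨?_, ?_⟩
  · ext l
    rw [gam_coeff n hn, Polynomial.coeff_one]
    by_cases hl : l = 0
    · subst hl
      rw [if_pos (by omega), if_pos rfl, h0, one_mul]
      rw [Nat.mul_zero, Nat.sub_zero, hγ0]
    · have : ¬ n * l ≤ 0 := by
        have : 0 < n * l := Nat.mul_pos hn (Nat.pos_of_ne_zero hl)
        omega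
      rw [if_neg this, if_neg hl]
  · intro m
    -- the first part of the right side
    have P1 : ∀ l : ℕ, (∑ ij ∈ Finset.HasAntidiagonal.antidiagonal m,
        (gamP n κ γ ij.1).coeff l * ((-1) ^ ij.2 * Z (List.replicate ij.2 false ++ [true]))) =
        if n * l ≤ m then algebraMap ℚ k ((l.factorial : ℚ)⁻¹ * κ ^ l) *
          ((((m - n * l : ℕ) : k) + 1) * γ (m + 1 - n * l)) else 0 := by
      intro l
      have e1 : ∀ ij : ℕ × ℕ, (gamP n κ γ ij.1).coeff l *
          ((-1) ^ ij.2 * Z (List.replicate ij.2 false ++ [true])) =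
          algebraMap ℚ k ((l.factorial : ℚ)⁻¹ * κ ^ l) * ((if n * l ≤ ij.1 then
            γ (ij.1 - n * l) else 0) *
            (fun j => (-1) ^ j * Z (List.replicate j false ++ [true])) ij.2) := by
        intro ij
        rw [gam_coeff n hn]
        by_cases h : n * l ≤ ij.1
        · rw [if_pos h, if_pos h, mul_assoc]
        · rw [if_neg h, if_neg h, zero_mul, mul_zero]
      rw [Finset.sum_congr rfl (fun ij _ => e1 ij), ← Finset.mul_sum]
      by_cases h : n * l ≤ m
      · obtain ⟨r, rfl⟩ := Nat.exists_eq_add_of_le h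
        rw [if_pos h, gam_shift (n * l) r γ
          (fun j => (-1) ^ j * Z (List.replicate j false ++ [true])), Nat.add_sub_cancel_left]
        have e2 : n * l + r + 1 - n * l = r + 1 := by omega
        rw [e2, hγ r]
      · rw [if_neg h, gam_small (n * l) m (by omega) γ
          (fun j => (-1) ^ j * Z (List.replicate j false ++ [true])), mul_zero]
    have P2 : ∀ l : ℕ, (∑ ij ∈ Finset.HasAntidiagonal.antidiagonal m,
        (gamP n κ γ ij.1).coeff l *
          ((-1) ^ ij.2 * (if ij.2 + 1 = n then algebraMap ℚ k c else 0))) =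
        if n * (l + 1) ≤ m + 1 then (algebraMap ℚ k (((l + 1).factorial : ℚ)⁻¹ * κ ^ (l + 1)) *
          ((n : k) * ((l : k) + 1))) * γ (m + 1 - n * (l + 1)) else 0 := by
      intro l
      rw [gam_one n m hn (fun i => (gamP n κ γ i).coeff l) (algebraMap ℚ k c),
        gam_key n l hn κ c hκ]
      have en : n * (l + 1) = n * l + n := Nat.mul_succ n l
      by_cases h : n ≤ m + 1
      · rw [if_pos h, gam_coeff n hn]
        by_cases h2 : n * (l + 1) ≤ m + 1
        · have h3 : n * l ≤ m + 1 - n := by omega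
          have h4 : m + 1 - n - n * l = m + 1 - n * (l + 1) := by omega
          rw [if_pos h2, if_pos h3, h4]
          ring
        · have h3 : ¬ n * l ≤ m + 1 - n := by omega
          rw [if_neg h2, if_neg h3, zero_mul]
      · have h2 : ¬ n * (l + 1) ≤ m + 1 := by omega
        rw [if_neg h, if_neg h2]
    have hsg : ∀ j : ℕ, ((-1 : Polynomial k)) ^ j = Polynomial.C ((-1 : k) ^ j) := by
      intro j
      rw [Polynomial.C_pow, Polynomial.C_neg, Polynomial.C_1]
    have hmon : ∀ j : ℕ, (if j + 1 = n then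
        Polynomial.monomial 1 (algebraMap ℚ k c) else (0 : Polynomial k)) =
        Polynomial.C (if j + 1 = n then algebraMap ℚ k c else 0) * Polynomial.X := by
      intro j
      by_cases h : j + 1 = n
      · rw [if_pos h, if_pos h, Polynomial.C_mul_X_eq_monomial]
      · rw [if_neg h, if_neg h, Polynomial.C_0, zero_mul]
    have hterm : ∀ ij : ℕ × ℕ, gamP n κ γ ij.1 *
        ((-1) ^ ij.2 * ZP (List.replicate ij.2 false ++ [true])) =
        gamP n κ γ ij.1 *
          Polynomial.C ((-1) ^ ij.2 * Z (List.replicate ij.2 false ++ [true])) +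
        gamP n κ γ ij.1 * Polynomial.C ((-1) ^ ij.2 *
          (if ij.2 + 1 = n then algebraMap ℚ k c else 0)) * Polynomial.X := by
      intro ij
      rw [hZ, hmon, hsg, Polynomial.C_mul, Polynomial.C_mul]
      ring
    have hm : ((m : Polynomial k) + 1) = Polynomial.C ((m : k) + 1) := by
      rw [Polynomial.C_add, Polynomial.C_1, map_natCast]
    rw [Finset.sum_congr rfl (fun ij _ => hterm ij), Finset.sum_add_distrib, hm]
    ext l
    rw [Polynomial.coeff_C_mul, Polynomial.coeff_add, Polynomial.finsetSum_coeff,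
      Polynomial.finsetSum_coeff]
    have q1 : ∀ ij : ℕ × ℕ, (gamP n κ γ ij.1 *
          Polynomial.C ((-1) ^ ij.2 * Z (List.replicate ij.2 false ++ [true]))).coeff l =
        (gamP n κ γ ij.1).coeff l * ((-1) ^ ij.2 * Z (List.replicate ij.2 false ++ [true])) :=
      fun ij => Polynomial.coeff_mul_C _ _ _
    rw [Finset.sum_congr rfl (fun ij _ => q1 ij), P1 l, gam_coeff n hn]
    cases l with
    | zero =>
      have q2 : ∀ ij : ℕ × ℕ, (gamP n κ γ ij.1 * Polynomial.C ((-1) ^ ij.2 *
          (if ij.2 + 1 = n then algebraMap ℚ k c else 0)) * Polynomial.X).coeff 0 = 0 :=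
        fun ij => Polynomial.coeff_mul_X_zero _
      rw [Finset.sum_congr rfl (fun ij _ => q2 ij), Finset.sum_const_zero, add_zero,
        if_pos (by omega), if_pos (by omega), Nat.mul_zero, Nat.sub_zero, Nat.sub_zero]
      ring
    | succ l =>
      have q2 : ∀ ij : ℕ × ℕ, (gamP n κ γ ij.1 * Polynomial.C ((-1) ^ ij.2 *
          (if ij.2 + 1 = n then algebraMap ℚ k c else 0)) * Polynomial.X).coeff (l + 1) =
          (gamP n κ γ ij.1).coeff l *
            ((-1) ^ ij.2 * (if ij.2 + 1 = n then algebraMap ℚ k c else 0)) := by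
        intro ij
        rw [Polynomial.coeff_mul_X, Polynomial.coeff_mul_C]
      rw [Finset.sum_congr rfl (fun ij _ => q2 ij), P2 l]
      by_cases h1 : n * (l + 1) ≤ m
      · have h2 : n * (l + 1) ≤ m + 1 := by omega
        rw [if_pos h1, if_pos h2, if_pos h2]
        have h3 : ((m - n * (l + 1) : ℕ) : k) = (m : k) - (n : k) * ((l : k) + 1) := by
          rw [Nat.cast_sub h1, Nat.cast_mul, Nat.cast_add, Nat.cast_one]
        rw [h3]
        ring
      · rw [if_neg h1, zero_add]
        by_cases h2 : n * (l + 1) ≤ m + 1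
        · rw [if_pos h2, if_pos h2]
          have h4 : n * (l + 1) = m + 1 := by omega
          have h5 : (m : k) + 1 = (n : k) * ((l : k) + 1) := by
            have := congrArg (Nat.cast : ℕ → k) h4
            rw [Nat.cast_mul, Nat.cast_add, Nat.cast_add, Nat.cast_one] at this
            exact this.symm
          rw [h5]
          ring
        · rw [if_neg h2, if_neg h2, mul_zero]

end Pool.Agent.MP_a57f33_nt.RT
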