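import Pool.Agent.Lib.MP_a57f33_nt.RT.Stm

set_option autoImplicit false

/-!
# MP_a57f33_nt, project RT, piece one
-/

namespace Pool.Agent.MP_a57f33_nt.RT

open Pool.Agent.MP_a57f33_nt TensorProduct

private lemma one_short {n : ℕ} {T : Module.End ℚ QX} (hT : Lowers List.length n T)
    (w : List Bool) (hw : w.length < n) : T (word w) = 0 := by
  apply ext_coeff
  intro a
  by_contra h
  have h1 : coeff (T (word w)) a ≠ 0 := by
    intro h2
    apply h
    rw [h2]
    simp [← coeffL_apply]
  have := hT w a h1
  omega

private lemma one_eq {n : ℕ} {φ : QX} {T : Module.End ℚ QX} (hT : Lowers List.length n T)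
    (hA : IsAdj (actL φ) T) (w : List Bool) (hw : w.length = n) :
    T (word w) = coeff φ w • word [] := by
  apply ext_coeff
  intro a
  rw [coeff_smul, coeff_word]
  by_cases ha : a = []
  · subst ha
    rw [← hA [] w, if_pos rfl, mul_one]
    have e1 : (word ([] : List Bool)) = (1 : QX) := by simp
    rw [e1]
    simp [actL, derL_apply, der_one]
  · rw [if_neg (fun e => ha e.symm), mul_zero]
    by_contra h1
    have := hT w a h1
    have h2 : 0 < a.length := List.length_pos_of_ne_nil ha
    omega

/-- [one] `expP` on short words -/
theorem p_one : S_expc → S_one := by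
  intro hE k _ _ n φ T Z hn hT hA
  obtain ⟨-, hc⟩ := hE (k := k) List.length n T hn hT
  have h0 : T (word []) = 0 := one_short hT [] hn
  constructor
  · intro w hw
    ext m
    rw [hc Z w m]
    cases m with
    | zero => simp [pair_word]
    | succ m =>
      rw [pow_succ, Module.End.mul_apply, one_short hT w hw, map_zero, map_zero, smul_zero,
        Polynomial.coeff_C_succ]
  · intro w hw
    ext m
    rw [hc Z w m, Polynomial.coeff_add]
    cases m with
    | zero => simp [pair_word, Polynomial.coeff_monomial]
    | succ m =>
      rw [pow_succ, Module.End.mul_apply, one_eq hT hA w hw, map_smul]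
      cases m with
      | zero =>
        rw [pow_zero, Module.End.one_apply, map_smul, pair_word]
        simp
      | succ m =>
        rw [pow_succ, Module.End.mul_apply, h0, map_zero, smul_zero, map_zero, smul_zero,
          Polynomial.coeff_C_succ, Polynomial.coeff_monomial, if_neg (by omega), add_zero]

end Pool.Agent.MP_a57f33_nt.RT
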