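import Pool.Agent.Lib.MP_a57f33_nt.RT.Stm

/-!
Piece [shp]: coefficients of the shuffle and stuffle coproducts.
-/

namespace Pool.Agent.MP_a57f33_nt.RT

open Pool.Agent.MP_a57f33_nt TensorProduct

private lemma shp_left (x : Bool) (u v : List Bool) (t : QX ⊗[ℚ] QX) :
    ccx u v (((FreeAlgebra.ι ℚ x : QX) ⊗ₜ[ℚ] (1 : QX)) * t) =
      match u with
      | [] => 0
      | a :: u' => if a = x then ccx u' v t else 0 := by
  cases u with
  | nil =>
    have key : (ccx [] v).comp (LinearMap.mulLeft ℚ ((FreeAlgebra.ι ℚ x : QX) ⊗ₜ[ℚ] (1 : QX))) =
        0 := by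
      apply TensorProduct.ext'
      intro a b
      simp only [LinearMap.comp_apply, LinearMap.mulLeft_apply, LinearMap.zero_apply,
        Algebra.TensorProduct.tmul_mul_tmul, ccx_tmul, coeff_iota_mul_nil, zero_mul]
    exact LinearMap.congr_fun key t
  | cons a u =>
    have key : (ccx (a :: u) v).comp
        (LinearMap.mulLeft ℚ ((FreeAlgebra.ι ℚ x : QX) ⊗ₜ[ℚ] (1 : QX))) =
        (if a = x then (1 : ℚ) else 0) • ccx u v := by
      apply TensorProduct.ext'
      intro f g
      simp only [LinearMap.comp_apply, LinearMap.mulLeft_apply, LinearMap.smul_apply,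
        Algebra.TensorProduct.tmul_mul_tmul, ccx_tmul, coeff_iota_mul_cons, one_mul, smul_eq_mul]
      split_ifs <;> ring
    have h := LinearMap.congr_fun key t
    simp only [LinearMap.comp_apply, LinearMap.mulLeft_apply, LinearMap.smul_apply,
      smul_eq_mul] at h
    rw [h]
    change _ = if a = x then ccx u v t else 0
    split_ifs <;> simp

private lemma shp_right (x : Bool) (u v : List Bool) (t : QX ⊗[ℚ] QX) :
    ccx u v (((1 : QX) ⊗ₜ[ℚ] (FreeAlgebra.ι ℚ x : QX)) * t) =
      match v with
      | [] => 0
      | a :: v' => if a = x then ccx u v' t else 0 := by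
  cases v with
  | nil =>
    have key : (ccx u []).comp (LinearMap.mulLeft ℚ ((1 : QX) ⊗ₜ[ℚ] (FreeAlgebra.ι ℚ x : QX))) =
        0 := by
      apply TensorProduct.ext'
      intro a b
      simp only [LinearMap.comp_apply, LinearMap.mulLeft_apply, LinearMap.zero_apply,
        Algebra.TensorProduct.tmul_mul_tmul, ccx_tmul, coeff_iota_mul_nil, mul_zero]
    exact LinearMap.congr_fun key t
  | cons a v =>
    have key : (ccx u (a :: v)).comp
        (LinearMap.mulLeft ℚ ((1 : QX) ⊗ₜ[ℚ] (FreeAlgebra.ι ℚ x : QX))) =
        (if a = x then (1 : ℚ) else 0) • ccx u v := by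
      apply TensorProduct.ext'
      intro f g
      simp only [LinearMap.comp_apply, LinearMap.mulLeft_apply, LinearMap.smul_apply,
        Algebra.TensorProduct.tmul_mul_tmul, ccx_tmul, coeff_iota_mul_cons, one_mul, smul_eq_mul]
      split_ifs <;> ring
    have h := LinearMap.congr_fun key t
    simp only [LinearMap.comp_apply, LinearMap.mulLeft_apply, LinearMap.smul_apply,
      smul_eq_mul] at h
    rw [h]
    change _ = if a = x then ccx u v t else 0
    split_ifs <;> simp

private lemma shp_cons (x a : Bool) (f : QX) (l : List (List Bool)) :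
    ((l.map (a :: ·)).map (coeff (FreeAlgebra.ι ℚ x * f))).sum =
      if a = x then (l.map (coeff f)).sum else 0 := by
  induction l with
  | nil => simp
  | cons w l ih =>
    simp only [List.map_cons, List.sum_cons, ih, coeff_iota_mul_cons]
    split_ifs <;> simp

private lemma shp_Dsh_cons (x : Bool) (w : List Bool) : Dsh (word (x :: w)) =
    ((FreeAlgebra.ι ℚ x : QX) ⊗ₜ[ℚ] (1 : QX)) * Dsh (word w) +
      ((1 : QX) ⊗ₜ[ℚ] (FreeAlgebra.ι ℚ x : QX)) * Dsh (word w) := by
  rw [word_cons, map_mul, ← add_mul]
  congr 1
  simp [Dsh]

private lemma shp_nil_right {α : Type} (u : List α) : Cyc.shuffle u [] = [u] := by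
  cases u <;> simp [Cyc.shuffle]

private lemma shp_word (w : List Bool) : ∀ u v : List Bool,
    ccx u v (Dsh (word w)) = ((Cyc.shuffle u v).map (coeff (word w))).sum := by
  induction w with
  | nil =>
    intro u v
    rw [word_nil, map_one, Algebra.TensorProduct.one_def, ccx_tmul]
    have h1 : ∀ u : List Bool, coeff (1 : QX) u = if u = [] then 1 else 0 := by
      intro u
      rw [← word_nil, coeff_word]
      cases u <;> simp
    have h2 : ∀ (a : Bool) (l : List (List Bool)),
        ((l.map (a :: ·)).map (coeff (1 : QX))).sum = 0 := by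
      intro a l
      induction l with
      | nil => simp
      | cons w l ih =>
        simp only [List.map_cons, List.sum_cons, ih, h1]; simp
    cases u with
    | nil => simp [Cyc.shuffle, h1]
    | cons a u =>
      cases v with
      | nil => simp [Cyc.shuffle, h1]
      | cons b v =>
        rw [Cyc.shuffle, List.map_append, List.sum_append, h2, h2, h1, h1]
        simp
  | cons x w ih =>
    intro u v
    rw [shp_Dsh_cons, map_add, shp_left, shp_right]
    cases u with
    | nil =>
      cases v with
      | nil => simp [Cyc.shuffle, coeff_iota_mul_nil]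
      | cons b v =>
        simp only [zero_add, ih, Cyc.shuffle, List.map_cons, List.map_nil, List.sum_cons,
          List.sum_nil, add_zero, word_cons, coeff_iota_mul_cons]
    | cons a u =>
      cases v with
      | nil =>
        simp only [add_zero, ih, shp_nil_right, List.map_cons, List.map_nil, List.sum_cons,
          List.sum_nil, word_cons, coeff_iota_mul_cons]
      | cons b v =>
        simp only [ih]
        rw [Cyc.shuffle, List.map_append, List.sum_append, word_cons, shp_cons, shp_cons]

private lemma shp_stuffle (u v : List ℕ+) : Cyc.stuffle u v = stuffle u v := by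
  induction u, v using Cyc.stuffle.induct with
  | case1 v => simp [Cyc.stuffle, stuffle]
  | case2 a u => simp [Cyc.stuffle, stuffle]
  | case3 a u b v h1 h2 h3 =>
    rw [Cyc.stuffle, stuffle, h1, h2, h3]

theorem p_shp : S_shp := by
  refine ⟨fun f u v => ?_, fun f u v => ?_⟩
  · let F : QX →ₗ[ℚ] ℚ :=
      { toFun := fun p => ((Cyc.shuffle u v).map (coeff p)).sum
        map_add' := by
          intro x y
          rw [← List.sum_map_add]
          congr 1
          apply List.map_congr_left
          intro t _; exact coeff_add _ _ _
        map_smul' := by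
          intro r x
          simp only [RingHom.id_apply, smul_eq_mul]
          rw [← List.sum_map_mul_left]
          congr 1
          apply List.map_congr_left
          intro t _; exact coeff_smul _ _ _ }
    have : (ccx u v).comp Dsh.toLinearMap = F := by
      apply linear_ext
      intro w
      exact shp_word w u v
    exact LinearMap.congr_fun this f
  · rw [shp_stuffle]
    exact cc_Delta f u v

end Pool.Agent.MP_a57f33_nt.RT
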