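import Pool.Agent.Lib.MP_a57f33_nt.RT.Stm

/-!
# The flows preserve the regularised double shuffle relations (assembly)
-/

namespace Pool.Agent.MP_a57f33_nt.RT

open Pool.Agent.MP_a57f33_nt TensorProduct

private lemma sol_act {n m : ℕ} {ψ f : QX} (h : IsHom n ψ) (hf : IsHom m f) :
    IsHom (n + m) (actL ψ f) := by
  rw [actL_apply]
  unfold FL.act
  exact (h.mul hf).add (isHom_der h hf)

private lemma sol_X1 (n : ℕ) : IsHom n (X1 ^ n) := by
  induction n with
  | zero =>
    rw [pow_zero, ← word_nil]
    exact isHom_word []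
  | succ n ih =>
    rw [pow_succ]
    exact ih.mul (isHom_iota true)

private lemma sol_raise {n : ℕ} {ψ : QX} {S' : QY →ₗ[ℚ] QY} (hom : IsHom n ψ)
    (D : YAct n ψ S') (a w : List ℕ+) (hne : coeff (S' (word a)) w ≠ 0) :
    wtY w = wtY a + n := by
  rw [D.co, inY_word] at hne
  by_contra hw
  apply hne
  have h1 : IsHom (n + (toX a).length)
      (actL ψ (word (toX a)) + kap n ψ • (X1 ^ n * word (toX a))) :=
    (sol_act hom (isHom_word _)).add (((sol_X1 n).mul (isHom_word _)).smul _)
  refine h1 _ fun h => hw ?_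
  unfold wtY
  omega

private lemma sol_fin (m : ℕ) : {w : List ℕ+ | wtY w = m}.Finite := by
  have h := (List.finite_length_eq Bool m).preimage (f := toX) toX_injective.injOn
  exact h

private lemma sol_const (hexpc : S_expc) {k : Type} [CommRing k] [Algebra ℚ k] {n : ℕ}
    (T : Module.End ℚ QX) (Z : List Bool → k) (hn : 1 ≤ n) (hL : Lowers List.length n T)
    (w : List Bool) (hw : T (word w) = 0) :
    expP List.length T Z w = Polynomial.C (Z w) := by
  ext m
  rw [(hexpc (k := k) List.length n T hn hL).2 Z w m]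
  cases m with
  | zero =>
    rw [pow_zero, Module.End.one_apply, pair_word, Polynomial.coeff_C_zero]
    simp
  | succ m =>
    rw [pow_succ, Module.End.mul_apply, hw, map_zero, map_zero, smul_zero,
      Polynomial.coeff_C_succ]

theorem p_sol : S_yact → S_shp → S_codx → S_adj → S_dert → S_expc → S_expm → S_adx →
    S_ty → S_sty → S_gam → S_one → S_sol := by
  intro hyact hshp hcodx hadj hdert hexpc hexpm hadx hty hsty hgam hone k _ _ γ Z n ψ T hZ hψ
    hom hn hT
  have hlie := hψ.1
  have hn1 : 1 ≤ n := by omega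
  obtain ⟨hlow, hlam, hval⟩ := hadx n ψ T hom hT
  have hval' := hval hlie hψ.2.1
  -- the shuffle side
  have hder : IsDer Cyc.shuffle T :=
    hdert Cyc.shuffle Dsh.toLinearMap (fun f u v => hshp.1 f u v) (actL ψ) T
      (fun h => hcodx ψ hlie h) hT
  have hmul : Mult Cyc.shuffle (expP List.length T Z) :=
    hexpm Cyc.shuffle List.length n T Z hn1 hder hlow hZ.shuffle_rel
  -- the stuffle side
  obtain ⟨S', D⟩ := hyact ψ hψ n hom hn
  obtain ⟨T', hT', hlow'⟩ := hadj wtY sol_fin n S' (fun a w h => sol_raise hom D a w h)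
  have hder' : IsDer Cyc.stuffle T' :=
    hdert Cyc.stuffle Delta.toLinearMap (fun f u v => hshp.2 f u v) S' T' D.cod hT'
  have hmul' : Mult Cyc.stuffle (expP wtY T' (Cyc.star γ Z)) :=
    hexpm Cyc.stuffle wtY n T' (Cyc.star γ Z) hn1 hder' hlow' hZ.stuffle_rel
  have hstar : Cyc.star (gamP n (kap n ψ) γ) (expP List.length T Z) =
      expP wtY T' (Cyc.star γ Z) := by
    funext u
    exact hsty n (kap n ψ) T T' hn1 hlow hlow' hlam
      (hty n ψ S' D T T' hT hT') γ Z u
  -- the values
  obtain ⟨hone1, hone2⟩ := hone n ψ T Z hn1 hlow hT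
  have hvals : ∀ j : ℕ, expP List.length T Z (List.replicate j false ++ [true]) =
      Polynomial.C (Z (List.replicate j false ++ [true])) +
        if j + 1 = n then Polynomial.monomial 1
          (algebraMap ℚ k (coeff ψ (List.replicate (n - 1) false ++ [true]))) else 0 := by
    intro j
    have hlen : (List.replicate j false ++ [true]).length = j + 1 := by simp
    rcases lt_trichotomy (j + 1) n with h | h | h
    · rw [if_neg (by omega), add_zero]
      exact hone1 _ (by omega)
    · rw [if_pos h, hone2 _ (by omega), hZ.one, Algebra.algebraMap_eq_smul_one,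
        show n - 1 = j by omega]
    · rw [if_neg (by omega), add_zero]
      refine sol_const hexpc T Z hn1 hlow _ ?_
      rw [hval' j, hom _ (by omega), zero_smul]
  obtain ⟨hg0, hg1⟩ := hgam n (kap n ψ) (coeff ψ (List.replicate (n - 1) false ++ [true])) γ Z
    (expP List.length T Z) hn1 rfl hZ.gamma_zero hZ.gamma_succ hvals
  refine ⟨?_, ?_, ?_, hmul, hg0, hg1, ?_⟩
  · rw [hone1 [] (by simp; omega), hZ.one, Polynomial.C_1]
  · rw [hone1 [false] (by simp; omega), hZ.x0, Polynomial.C_0]
  · rw [hone1 [true] (by simp; omega), hZ.x1, Polynomial.C_0]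
  · intro u v
    rw [hstar]
    exact hmul' u v

end Pool.Agent.MP_a57f33_nt.RT
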