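import Pool.Agent.Lib.MP_a57f33_nt.RT.Stm

/-!
# Piece [sta]: `star` in terms of `lam`
-/

namespace Pool.Agent.MP_a57f33_nt.RT

open Pool.Agent.MP_a57f33_nt TensorProduct

private lemma sta_one (v : List ℕ+) : toX (1 :: v) = true :: toX v := by
  simp [toX]

private lemma sta_ne (n : ℕ+) (hn : n ≠ 1) (v : List ℕ+) :
    ∃ t : List Bool, toX (n :: v) = false :: t := by
  have h1 : (n : ℕ) ≠ 1 := fun h => hn (PNat.coe_eq_one_iff.mp h)
  have h2 := n.pos
  obtain ⟨m, hm⟩ : ∃ m, (n : ℕ) - 1 = m + 1 := ⟨(n : ℕ) - 2, by omega⟩
  refine ⟨List.replicate m false ++ true :: toX v, ?_⟩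
  rw [toX, hm, List.replicate_succ]
  rfl

private lemma sta_lam (i : ℕ) : ∀ u : List ℕ+, (lam ^ i) (word (toX u)) =
    if i ≤ u.length ∧ u.take i = List.replicate i 1 then word (toX (u.drop i)) else 0 := by
  induction i with
  | zero => intro u; simp
  | succ i ih =>
    intro u
    rw [pow_succ, Module.End.mul_apply, lam_word]
    cases u with
    | nil =>
      rw [if_neg (by simp)]
      simp [toX, tlw]
    | cons n v =>
      by_cases hn : n = 1
      · subst hn
        rw [sta_one]
        have e : tlw (true :: toX v) = word (toX v) := rfl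
        rw [e, ih]
        simp only [List.length_cons, List.take_succ_cons, List.replicate_succ, List.cons.injEq,
          true_and, List.drop_succ_cons, Nat.add_le_add_iff_right]
      · obtain ⟨t, ht⟩ := sta_ne n hn v
        rw [ht]
        have e : tlw (false :: t) = 0 := rfl
        rw [e, map_zero, if_neg]
        rintro ⟨_, h⟩
        rw [List.take_succ_cons, List.replicate_succ] at h
        exact hn (List.cons.inj h).1

theorem p_sta : S_sta := by
  intro k _ _ γ Z u N hN
  unfold Cyc.star
  have h1 : ∀ i, γ i * pair Z ((lam ^ i) (word (toX u))) =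
      if i ≤ u.length ∧ u.take i = List.replicate i 1 then γ i * Z (toX (u.drop i)) else 0 := by
    intro i
    rw [sta_lam]
    split_ifs
    · rw [pair_word]
    · rw [map_zero, mul_zero]
  simp only [h1]
  have h2 : ∀ i ∈ Finset.range (u.length + 1),
      (if u.take i = List.replicate i 1 then γ i * Z (toX (u.drop i)) else 0) =
      if i ≤ u.length ∧ u.take i = List.replicate i 1 then γ i * Z (toX (u.drop i)) else 0 := by
    intro i hi
    rw [Finset.mem_range] at hi
    have hi' : i ≤ u.length := by omega
    simp only [hi', true_and]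
  rw [Finset.sum_congr rfl h2]
  refine Finset.sum_subset ?_ ?_
  · intro i hi
    rw [Finset.mem_range] at hi ⊢
    omega
  · intro i _ hi
    rw [Finset.mem_range] at hi
    rw [if_neg]
    rintro ⟨h, _⟩
    omega

end Pool.Agent.MP_a57f33_nt.RT
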