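import Pool.Agent.Lib.MP_a57f33_nt.RT.Stm

/-!
# Piece [step]: one step of the torsor theorem
-/

namespace Pool.Agent.MP_a57f33_nt.RT

open Pool.Agent.MP_a57f33_nt TensorProduct

theorem p_step : S_adj → S_adx → S_one → S_sol → S_dif → S_dec → S_map → S_step := by
  classical
  intro hadj hadx hone hsol hdif hdec hmap k _ _ P hP γ γ' Z Z' n hn hZ hZ' hlt hPZ
  obtain ⟨r, e, L, hL⟩ := hdec n (fun w => Z w - Z' w)
  choose φ hφ hφn hφc using fun j : Fin r => hdif γ γ' Z Z' n hn hZ hZ' hlt (L j)
  have hT : ∀ j : Fin r, ∃ T : Module.End ℚ QX, IsAdj (actL (φ j)) T ∧ Lowers List.length n T := by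
    intro j
    refine hadj (X := Bool) List.length (fun m => List.finite_length_eq Bool m) n (actL (φ j)) ?_
    intro a w hw
    by_contra hne
    apply hw
    have h1 : IsHom (n + a.length) (actL (φ j) (word a)) := by
      have e1 : actL (φ j) (word a) = φ j * word a + der (φ j) (word a) := by
        simp [actL, derL_apply]
      rw [e1]
      exact ((hφn j).mul (isHom_word a)).add (isHom_der (hφn j) (isHom_word a))
    exact h1 w (by omega)
  choose T hTadj hTlow using hT
  have key : ∀ s : Finset (Fin r), ∃ (γ'' : ℕ → k) (Z'' : List Bool → k), Cyc.RegDS γ'' Z'' ∧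
      P Z'' ∧ (∀ w : List Bool, w.length < n → Z'' w = Z' w) ∧
      ∀ w : List Bool, w.length = n → Z'' w = Z' w + ∑ j ∈ s, coeff (φ j) w • e j := by
    intro s
    induction s using Finset.induction_on with
    | empty => exact ⟨γ', Z', hZ', hPZ, fun _ _ => rfl, fun _ _ => by simp⟩
    | insert j s hj ih =>
      obtain ⟨γ1, Z1, h1, h2, h3, h4⟩ := ih
      have h5 := hsol γ1 Z1 n (φ j) (T j) h1 (hφ j) (hφn j) hn (hTadj j)
      have h6 := hmap (Polynomial.evalRingHom (e j)) _ _ h5
      have h7 := hone n (φ j) (T j) Z1 (by omega) (hTlow j) (hTadj j)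
      refine ⟨_, _, h6, ?_, ?_, ?_⟩
      · exact hP γ1 Z1 (φ j) n (T j) (e j) h1 (hφ j) (hφn j) hn (hTadj j) h2
      · intro w hw
        simp only [Polynomial.coe_evalRingHom]
        rw [h7.1 w hw, Polynomial.eval_C, h3 w hw]
      · intro w hw
        simp only [Polynomial.coe_evalRingHom]
        rw [h7.2 w hw, Polynomial.eval_add, Polynomial.eval_C, Polynomial.eval_monomial, h4 w hw,
          h1.one, Finset.sum_insert hj, pow_one, smul_mul_assoc, one_mul]
        ring
  obtain ⟨γ'', Z'', h1, h2, h3, h4⟩ := key Finset.univ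
  refine ⟨γ'', Z'', h1, h2, fun w hw => ?_⟩
  rcases Nat.lt_succ_iff_lt_or_eq.mp hw with h | h
  · rw [hlt w h, h3 w h]
  · rw [h4 w h]
    have h5 := hL w h
    have h6 : ∑ j, coeff (φ j) w • e j = ∑ j, L j (Z w - Z' w) • e j :=
      Finset.sum_congr rfl fun j _ => by rw [hφc j w h]
    rw [h6]
    rw [← h5]
    ring

end Pool.Agent.MP_a57f33_nt.RT
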