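import Pool.Agent.Lib.MP_a57f33_nt.RT.Stm

/-!
# Star of `expP`
-/

namespace Pool.Agent.MP_a57f33_nt.RT

open Pool.Agent.MP_a57f33_nt TensorProduct

private lemma sty_lam_word (j : ℕ) : ∀ w : List Bool, w.length < j →
    (lam ^ j) (word w) = 0 := by
  induction j with
  | zero => intro w h; simp at h
  | succ j ih =>
    intro w h
    rw [pow_succ, Module.End.mul_apply, lam_word]
    match w, h with
    | [], _ => simp [tlw]
    | true :: w, h => exact ih w (by simpa using h)
    | false :: w, _ => simp [tlw]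

private lemma sty_sum {k : Type} [CommRing k] (N c : ℕ) (G : ℕ → k)
    (hG : ∀ j, N < j + c → G j = 0) :
    ∑ i ∈ Finset.range (N + 1), (if c ≤ i then G (i - c) else 0) =
      ∑ j ∈ Finset.range (N + 1), G j := by
  have h1 : ∑ j ∈ Finset.range (N + 1), G j = ∑ j ∈ Finset.range (N + 1 - c), G j := by
    symm
    apply Finset.sum_subset
    · intro x hx
      simp only [Finset.mem_range] at hx ⊢
      omega
    · intro x hx hx'
      simp only [Finset.mem_range] at hx hx'
      exact hG x (by omega)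
  have h2 : ∑ i ∈ Finset.range (N + 1), (if c ≤ i then G (i - c) else 0) =
      ∑ i ∈ Finset.Ico c (N + 1), G (i - c) := by
    rw [← Finset.sum_filter]
    apply Finset.sum_congr
    · ext x
      simp only [Finset.mem_filter, Finset.mem_range, Finset.mem_Ico]
      omega
    · intro x _
      rfl
  rw [h1, h2, Finset.sum_Ico_eq_sum_range]
  apply Finset.sum_congr rfl
  intro x _
  rw [Nat.add_sub_cancel_left]

private lemma sty_gam {k : Type} [CommRing k] [Algebra ℚ k] (n : ℕ) (hn : 1 ≤ n) (κ : ℚ)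
    (γ : ℕ → k) (i b : ℕ) :
    (gamP n κ γ i).coeff b =
      if n * b ≤ i then ((b.factorial : ℚ)⁻¹ * κ ^ b) • γ (i - n * b) else 0 := by
  unfold gamP
  rw [Polynomial.finsetSum_coeff]
  by_cases h : n * b ≤ i
  · rw [if_pos h, Finset.sum_eq_single b]
    · rw [if_pos h, Polynomial.coeff_monomial, if_pos rfl]
    · intro l _ hl
      split_ifs
      · rw [Polynomial.coeff_monomial, if_neg hl]
      · simp
    · intro hb
      exfalso
      apply hb
      rw [Finset.mem_range]
      nlinarith
  · rw [if_neg h]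
    apply Finset.sum_eq_zero
    intro l _
    split_ifs with h2
    · rw [Polynomial.coeff_monomial, if_neg]
      rintro rfl
      exact h h2
    · simp

private lemma sty_pair (hE : S_expc) {k : Type} [CommRing k] [Algebra ℚ k] (n : ℕ)
    (T : Module.End ℚ QX) (hn : 1 ≤ n) (hT : Lowers List.length n T) (Z : List Bool → k)
    (f : QX) (a : ℕ) :
    (pair (expP List.length T Z) f).coeff a = ((a.factorial : ℚ)⁻¹) • pair Z ((T ^ a) f) := by
  have h : ((Polynomial.lcoeff k a).restrictScalars ℚ).comp (pair (expP List.length T Z)) =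
      ((a.factorial : ℚ)⁻¹) • (pair Z).comp (T ^ a) := by
    apply linear_ext
    intro w
    simp only [LinearMap.comp_apply, LinearMap.smul_apply, pair_word]
    exact (@hE Bool k _ _ List.length n T hn hT).2 Z w a
  exact LinearMap.congr_fun h f

private lemma sty_star (hS : S_sta) {k : Type} [CommRing k] [Algebra ℚ k] (γ : ℕ → k)
    (Z : List Bool → k) (f : QY) :
    ∃ N₀ : ℕ, ∀ N : ℕ, N₀ ≤ N → pair (Cyc.star γ Z) f =
      ∑ i ∈ Finset.range (N + 1), γ i * pair Z ((lam ^ i) (inY f)) := by
  have hf : f ∈ Submodule.span ℚ (Set.range (FreeAlgebra.basisFreeMonoid ℚ ℕ+)) := by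
    rw [Module.Basis.span_eq]
    trivial
  refine Submodule.span_induction (p := fun f _ => ∃ N₀ : ℕ, ∀ N : ℕ, N₀ ≤ N →
    pair (Cyc.star γ Z) f = ∑ i ∈ Finset.range (N + 1), γ i * pair Z ((lam ^ i) (inY f)))
    ?_ ?_ ?_ ?_ hf
  · rintro x ⟨w, rfl⟩
    have hw : FreeAlgebra.basisFreeMonoid ℚ ℕ+ w = word w.toList := by
      rw [← basis_apply, FreeMonoid.ofList_toList]
    refine ⟨w.toList.length, fun N hN => ?_⟩
    rw [hw, pair_word, inY_word]
    exact @hS k _ _ γ Z w.toList N hN
  · exact ⟨0, fun N _ => by simp⟩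
  · rintro x y _ _ ⟨N₁, h₁⟩ ⟨N₂, h₂⟩
    refine ⟨max N₁ N₂, fun N hN => ?_⟩
    rw [map_add, h₁ N (le_trans (le_max_left _ _) hN), h₂ N (le_trans (le_max_right _ _) hN),
      ← Finset.sum_add_distrib]
    apply Finset.sum_congr rfl
    intro i _
    rw [map_add, map_add, map_add, mul_add]
  · rintro r x _ ⟨N₁, h₁⟩
    refine ⟨N₁, fun N hN => ?_⟩
    rw [map_smul, h₁ N hN, Finset.smul_sum]
    apply Finset.sum_congr rfl
    intro i _
    rw [map_smul, map_smul, map_smul, mul_smul_comm]

private lemma sty_pow (n : ℕ) (κ : ℚ) (T : Module.End ℚ QX) (T' : Module.End ℚ QY)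
    (h : ∀ f : QY, inY (T' f) = T (inY f) + κ • (lam ^ n) (inY f)) (m : ℕ) :
    ∀ f : QY, inY ((T' ^ m) f) = ((κ • lam ^ n + T) ^ m) (inY f) := by
  induction m with
  | zero => intro f; simp
  | succ m ih =>
    intro f
    rw [pow_succ, pow_succ, Module.End.mul_apply, Module.End.mul_apply, ih, h,
      LinearMap.add_apply, LinearMap.smul_apply, add_comm (T (inY f))]

theorem p_sty : S_expc → S_sta → S_sty := by
  intro hE hS k _ _ n κ T T' hn hT hT' hlam hin γ Z u
  have hc : Commute lam T := by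
    apply LinearMap.ext
    intro f
    exact (hlam f).symm
  have hc2 : Commute (κ • lam ^ n) T := (hc.pow_left n).smul_left κ
  have hlu : u.length ≤ (toX u).length := by
    induction u with
    | nil => simp
    | cons a u ih => simp only [toX, List.length_append, List.length_replicate,
        List.length_cons]; omega
  ext m
  obtain ⟨N₀, hN₀⟩ := sty_star hS γ Z ((T' ^ m) (word u))
  set N := max N₀ (toX u).length with hN
  have hNu : (toX u).length ≤ N := le_max_right _ _
  rw [(@hE ℕ+ k _ _ wtY n T' hn hT').2 (Cyc.star γ Z) u m, hN₀ N (le_max_left _ _),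
    sty_pow n κ T T' hin m, inY_word, hc2.add_pow',
    @hS (Polynomial k) _ _ (gamP n κ γ) (expP List.length T Z) u N (hlu.trans hNu),
    Polynomial.finsetSum_coeff]
  have hL : ∀ i ∈ Finset.range (N + 1), (gamP n κ γ i *
      pair (expP List.length T Z) ((lam ^ i) (word (toX u)))).coeff m =
      ∑ x ∈ Finset.HasAntidiagonal.antidiagonal m,
        (if n * x.1 ≤ i then ((x.1.factorial : ℚ)⁻¹ * κ ^ x.1 * (x.2.factorial : ℚ)⁻¹) •
          (γ (i - n * x.1) * pair Z ((lam ^ (i - n * x.1 + n * x.1))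
            ((T ^ x.2) (word (toX u))))) else 0) := by
    intro i _
    rw [Polynomial.coeff_mul]
    apply Finset.sum_congr rfl
    intro x _
    rw [sty_gam n hn, sty_pair hE n T hn hT]
    split_ifs with h
    · rw [Nat.sub_add_cancel h, smul_mul_smul_comm, ← Module.End.mul_apply,
        ← Module.End.mul_apply, (hc.pow_pow i x.2).eq]
    · rw [zero_mul]
  rw [Finset.sum_congr rfl hL, Finset.sum_comm]
  have hR : ∀ i ∈ Finset.range (N + 1), γ i * pair Z ((lam ^ i)
      ((∑ x ∈ Finset.HasAntidiagonal.antidiagonal m,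
        m.choose x.1 • ((κ • lam ^ n) ^ x.1 * T ^ x.2)) (word (toX u)))) =
      ∑ x ∈ Finset.HasAntidiagonal.antidiagonal m, ((m.choose x.1 : ℚ) * κ ^ x.1) •
        (γ i * pair Z ((lam ^ (i + n * x.1)) ((T ^ x.2) (word (toX u))))) := by
    intro i _
    rw [LinearMap.sum_apply, map_sum, map_sum, Finset.mul_sum]
    apply Finset.sum_congr rfl
    intro x _
    rw [smul_pow, ← pow_mul, smul_mul_assoc, ← Nat.cast_smul_eq_nsmul ℚ, smul_smul,
      LinearMap.smul_apply, map_smul, map_smul, mul_smul_comm, Module.End.mul_apply,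
      ← Module.End.mul_apply (lam ^ i), ← pow_add]
  rw [Finset.sum_congr rfl hR]
  conv_rhs => rw [Finset.sum_comm, Finset.smul_sum]
  apply Finset.sum_congr rfl
  intro x hx
  rw [Finset.HasAntidiagonal.mem_antidiagonal] at hx
  rw [sty_sum N (n * x.1) (fun j => ((x.1.factorial : ℚ)⁻¹ * κ ^ x.1 *
    (x.2.factorial : ℚ)⁻¹) • (γ j * pair Z ((lam ^ (j + n * x.1))
            ((T ^ x.2) (word (toX u))))))]
  · rw [Finset.smul_sum]
    apply Finset.sum_congr rfl
    intro j _
    rw [smul_smul]
    congr 1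
    have h1 := Nat.choose_mul_factorial_mul_factorial (n := m) (k := x.1) (by omega)
    have h2 : m - x.1 = x.2 := by omega
    rw [h2] at h1
    have h3 : ((m.choose x.1 : ℕ) : ℚ) * x.1.factorial * x.2.factorial = m.factorial := by
      exact_mod_cast h1
    have h4 : (x.1.factorial : ℚ) ≠ 0 := by exact_mod_cast x.1.factorial_ne_zero
    have h5 : (x.2.factorial : ℚ) ≠ 0 := by exact_mod_cast x.2.factorial_ne_zero
    have h6 : ((m.choose x.1 : ℕ) : ℚ) ≠ 0 := by
      exact_mod_cast (Nat.choose_pos (show x.1 ≤ m by omega)).ne'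
    rw [← h3]
    field_simp
  · intro j hj
    rw [← Module.End.mul_apply, (hc.pow_pow _ x.2).eq, Module.End.mul_apply,
      sty_lam_word _ _ (lt_of_le_of_lt hNu hj), map_zero, map_zero, mul_zero, smul_zero]

end Pool.Agent.MP_a57f33_nt.RT
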