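import Pool.Agent.Lib.MP_a57f33_nt.RT.Stm

/-!
Piece [tor]: Racinet's torsor theorem (the induction).
-/

set_option autoImplicit false

namespace Pool.Agent.MP_a57f33_nt.RT

open Pool.Agent.MP_a57f33_nt TensorProduct

private theorem tor_two {k : Type} [CommRing k] [Algebra ℚ k] {x : k} (h : x + x = 0) :
    x = 0 := by
  have h1 : (2 : ℚ)⁻¹ • (x + x) = x := by
    rw [← two_smul ℚ x, smul_smul]
    norm_num
  rw [← h1, h, smul_zero]

private theorem tor_same {k : Type} [CommRing k] [Algebra ℚ k] {γ : ℕ → k} {Z : List Bool → k}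
    (h : Cyc.RegDS γ Z) (a : Bool) (ha : Z [a] = 0) : Z [a, a] = 0 := by
  have h1 := h.shuffle_rel [a] [a]
  simp only [Cyc.shuffle, List.map_cons, List.map_nil, List.cons_append, List.nil_append,
    List.sum_cons, List.sum_nil, ha, mul_zero, add_zero] at h1
  exact tor_two h1

private theorem tor_swap {k : Type} [CommRing k] [Algebra ℚ k] {γ : ℕ → k} {Z : List Bool → k}
    (h : Cyc.RegDS γ Z) : Z [true, false] = -Z [false, true] := by
  have h1 := h.shuffle_rel [true] [false]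
  simp only [Cyc.shuffle, List.map_cons, List.map_nil, List.cons_append, List.nil_append,
    List.sum_cons, List.sum_nil, h.x0, mul_zero, add_zero] at h1
  exact eq_neg_of_add_eq_zero_left h1

theorem p_tor : S_step → S_tor := by
  intro hs k _ _ P hP γ γ' Z Z' hZ hZ' h2 hPZ N
  have hbase : ∀ w : List Bool, w.length < 3 → Z w = Z' w := by
    intro w hw
    rcases w with _ | ⟨a, _ | ⟨b, _ | ⟨c, w⟩⟩⟩
    · rw [hZ.one, hZ'.one]
    · cases a
      · rw [hZ.x0, hZ'.x0]
      · rw [hZ.x1, hZ'.x1]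
    · cases a <;> cases b
      · rw [tor_same hZ _ hZ.x0, tor_same hZ' _ hZ'.x0]
      · exact h2
      · rw [tor_swap hZ, tor_swap hZ', h2]
      · rw [tor_same hZ _ hZ.x1, tor_same hZ' _ hZ'.x1]
    · simp only [List.length_cons] at hw
      omega
  have hind : ∀ m : ℕ, ∃ (γ'' : ℕ → k) (Z'' : List Bool → k), Cyc.RegDS γ'' Z'' ∧ P Z'' ∧
      ∀ w : List Bool, w.length < m + 3 → Z w = Z'' w := by
    intro m
    induction m with
    | zero => exact ⟨γ', Z', hZ', hPZ, fun w hw => hbase w (by omega)⟩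
    | succ m ih =>
      obtain ⟨γ₁, Z₁, h3, h4, h5⟩ := ih
      obtain ⟨γ₂, Z₂, h6, h7, h8⟩ := hs P hP γ γ₁ Z Z₁ (m + 3) (by omega) hZ h3 h5 h4
      exact ⟨γ₂, Z₂, h6, h7, fun w hw => h8 w (by omega)⟩
  obtain ⟨γ'', Z'', h3, h4, h5⟩ := hind N
  exact ⟨γ'', Z'', h3, h4, fun w hw => h5 w (by omega)⟩

end Pool.Agent.MP_a57f33_nt.RT
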