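import Pool.Agent.Lib.MP_a57f33_nt.RT.Stm

/-!
Project RT, piece [ty].
-/

namespace Pool.Agent.MP_a57f33_nt.RT

open Pool.Agent.MP_a57f33_nt TensorProduct

private lemma ty_coeff_lam (g : QX) (a : List Bool) : coeff (lam g) a = coeff g (true :: a) := by
  have h : (coeffL a).comp lam = coeffL (true :: a) := by
    apply linear_ext
    intro w
    rw [LinearMap.comp_apply, coeffL_apply, coeffL_apply, lam_word, coeff_word]
    match w with
    | [] => simp [tlw, coeff_zero]
    | true :: w => simp [tlw, coeff_word]
    | false :: w => simp [tlw, coeff_zero]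
  exact LinearMap.congr_fun h g

private lemma ty_coeff_lam_pow (n : ℕ) (g : QX) (a : List Bool) :
    coeff ((lam ^ n) g) a = coeff g (List.replicate n true ++ a) := by
  induction n generalizing g with
  | zero => simp
  | succ n ih =>
    rw [pow_succ, Module.End.mul_apply, ih, ty_coeff_lam, List.replicate_succ, List.cons_append]

private lemma ty_X1_pow (n : ℕ) (w : List Bool) :
    X1 ^ n * word w = word (List.replicate n true ++ w) := by
  induction n with
  | zero => simp
  | succ n ih =>
    rw [pow_succ', mul_assoc, ih, List.replicate_succ, List.cons_append, word_cons]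

private lemma ty_actL_X0 (ψ f : QX) : actL ψ (f * FreeAlgebra.ι ℚ false) =
    actL ψ f * FreeAlgebra.ι ℚ false := by
  rw [actL_apply, actL_apply, FL.act, FL.act, der_mul, der_false, mul_zero, add_zero, add_mul,
    mul_assoc]

private lemma ty_toX_ne (u : List ℕ+) (v : List Bool) : toX u ≠ v ++ [false] := by
  intro h
  by_cases hu : u = []
  · subst hu
    simp [toX] at h
  · obtain ⟨v', hv'⟩ := toX_ends u hu
    rw [hv'] at h
    have := List.append_inj_right' h rfl
    simp at this

private lemma ty_coeff_toX (q : QX) (u : List ℕ+) :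
    coeff (q * FreeAlgebra.ι ℚ false) (toX u) = 0 := by
  by_cases hu : u = []
  · subst hu
    exact coeff_mul_iota_nil _ _
  · obtain ⟨v', hv'⟩ := toX_ends u hu
    rw [hv', coeff_mul_iota_snoc]
    simp

private lemma ty_coeff_word_comm (v w : List Bool) : coeff (word v) w = coeff (word w) v := by
  rw [coeff_word, coeff_word]
  simp only [eq_comm]

private lemma ty_core {n : ℕ} {ψ : QX} {S' : QY →ₗ[ℚ] QY}
    (hc : ∀ (h : QY) (u : List ℕ+), coeff (S' h) u =
      coeff (actL ψ (inY h) + kap n ψ • (X1 ^ n * inY h)) (toX u))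
    {T : Module.End ℚ QX} {T' : Module.End ℚ QY} (hT : IsAdj (actL ψ) T)
    (hT' : IsAdj S' T') (u : List ℕ+) :
    inY (T' (word u)) = T (inY (word u)) + kap n ψ • (lam ^ n) (inY (word u)) := by
  apply ext_coeff
  intro w
  have hR : coeff (T (inY (word u)) + kap n ψ • (lam ^ n) (inY (word u))) w =
      coeff (actL ψ (word w)) (toX u) +
        kap n ψ * coeff (word (List.replicate n true ++ w)) (toX u) := by
    rw [coeff_add, coeff_smul, inY_word, ty_coeff_lam_pow, ← hT, ty_coeff_word_comm (toX u)]
  rw [hR]
  have hcase : (∃ a : List ℕ+, toX a = w) ∨ ∃ v : List Bool, w = v ++ [false] := by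
    rcases List.eq_nil_or_concat w with h | ⟨v, b, h⟩
    · exact Or.inl ⟨[], by rw [h]; rfl⟩
    · rw [List.concat_eq_append] at h
      cases b with
      | false => exact Or.inr ⟨v, h⟩
      | true =>
        obtain ⟨a, _, ha⟩ := exists_toX v
        exact Or.inl ⟨a, by rw [ha, h]⟩
  rcases hcase with ⟨a, rfl⟩ | ⟨v, rfl⟩
  · rw [coeff_inY, ← hT', hc, coeff_add, coeff_smul, inY_word, ty_X1_pow]
  · rw [coeff_inY_false]
    have h1 : word (v ++ [false]) = word v * FreeAlgebra.ι ℚ false := by
      rw [word_append]; simp
    rw [h1, ty_actL_X0, ty_coeff_toX, coeff_word, if_neg, mul_zero, add_zero]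
    intro h
    rw [← List.append_assoc] at h
    exact ty_toX_ne u _ h.symm

/-- Piece [ty]. -/
theorem p_ty : S_ty := by
  intro n ψ S' hS T T' hT hT' f
  have h : inY.toLinearMap.comp T' =
      T.comp inY.toLinearMap + kap n ψ • (lam ^ n).comp inY.toLinearMap := by
    apply linear_ext
    intro u
    simp only [LinearMap.comp_apply, LinearMap.add_apply, LinearMap.smul_apply,
      AlgHom.toLinearMap_apply]
    exact ty_core hS.co hT hT' u
  have := LinearMap.congr_fun h f
  simpa only [LinearMap.comp_apply, LinearMap.add_apply, LinearMap.smul_apply,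
      AlgHom.toLinearMap_apply] using this

end Pool.Agent.MP_a57f33_nt.RT
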