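import Pool.Agent.Lib.MP_a57f33_nt.RT.Stm

/-!
Piece [map]: the regularised double shuffle relations under ring homomorphisms.
-/

namespace Pool.Agent.MP_a57f33_nt.RT

open Pool.Agent.MP_a57f33_nt TensorProduct

private lemma map_star {k k' : Type} [CommRing k] [CommRing k'] (f : k →+* k') (γ : ℕ → k)
    (Z : List Bool → k) :
    Cyc.star (fun i => f (γ i)) (fun w => f (Z w)) = fun u => f (Cyc.star γ Z u) := by
  funext u
  unfold Cyc.star
  rw [map_sum]
  refine Finset.sum_congr rfl fun i _ => ?_
  split_ifs
  · rw [map_mul]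
  · rw [map_zero]

private lemma map_lsum {k k' : Type} [CommRing k] [CommRing k'] (f : k →+* k') {α : Type}
    (l : List α) (g : α → k) : (l.map fun x => f (g x)).sum = f (l.map g).sum := by
  rw [map_list_sum, List.map_map]
  rfl

theorem p_map : S_map := by
  intro k k' _ _ f γ Z h
  refine ⟨?_, ?_, ?_, ?_, ?_, ?_, ?_⟩
  · show f (Z []) = 1
    rw [h.one, map_one]
  · show f (Z [false]) = 0
    rw [h.x0, map_zero]
  · show f (Z [true]) = 0
    rw [h.x1, map_zero]
  · intro u v
    rw [map_lsum, h.shuffle_rel, map_mul]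
  · show f (γ 0) = 1
    rw [h.gamma_zero, map_one]
  · intro n
    have h1 := congrArg f (h.gamma_succ n)
    rw [map_mul, map_add, map_natCast, map_one, map_sum] at h1
    show ((n : k') + 1) * f (γ (n + 1)) = _
    rw [h1]
    refine Finset.sum_congr rfl fun ij _ => ?_
    rw [map_mul, map_mul, map_pow, map_neg, map_one]
  · intro u v
    rw [map_star, map_lsum, h.stuffle_rel, map_mul]

end Pool.Agent.MP_a57f33_nt.RT
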